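import Pool.Agent.Results.MP_464c42_nt.HeightWindows

/-!
# Integral points of C-pairs on the line: the relative height
-/

set_option autoImplicit false

namespace Pool.Agent.K6.H40.Campana

open NumberField IsDedekindDomain
open Pool.Agent.Results.MP_464c42_nt.HeightWindows (recip IsIntegral height)

/-- the relative height `H_K(x) = exp ([K : ℚ] h(x))` -/
noncomputable def relHeight {K : Type} [Field K] [NumberField K] (x : K) : ℝ :=
  Real.exp ((Module.finrank ℚ K : ℝ) * height x)

lemma s_nonneg (m : Fin 3 → ℕ∞) : 0 ≤ min (4 * (∑ i, recip (m i)) / 7) (20 / 37) := by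
  have hσ0 : 0 ≤ ∑ i, recip (m i) := by
    apply Finset.sum_nonneg
    intro i _
    unfold recip
    positivity
  exact le_min (by positivity) (by norm_num)

lemma count (K : Type) [Field K] [NumberField K] (S : Finset (HeightOneSpectrum (𝓞 K))) (m : Fin 3 → ℕ∞)
    (hm : ∀ i, 1 ≤ m i) (hσ : ∑ i, recip (m i) < 1) (ε : ℝ) (hε : 0 < ε) :
    ∃ C : ℝ, ∀ X : ℝ, 1 ≤ X →
      {x | x ∈ {x : K | IsIntegral S m x} ∧ relHeight x ≤ X}.Finite ∧
      ({x | x ∈ {x : K | IsIntegral S m x} ∧ relHeight x ≤ X}.ncard : ℝ) ≤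
        C * X ^ (min (4 * (∑ i, recip (m i)) / 7) (20 / 37) + ε) :=
  Pool.Agent.Results.MP_464c42_nt.HeightWindows.count K S m hm hσ ε hε

end Pool.Agent.K6.H40.Campana
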