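import Pool.Agent.Results.MP_dc323a_nt.WindowsWithoutExceptions
import Pool.Agent.R479.DA.Lim

/-!
# The norms of the members of the exceptional triples over the Gaussian integers
-/

set_option autoImplicit false

namespace Pool.Agent.K6.H40.GaussMembers

open Finset
open Pool.Agent.Results.MP_dc323a_nt.WindowsWithoutExceptions (All IsPrimeSystem height expo)

/-- the square of the absolute value of a Gaussian integer -/
noncomputable def nsq (z : GaussianInt) : ℝ := ‖GaussianInt.toComplex z‖ ^ 2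

/-- Every triple `a + b = c` of coprime nonzero Gaussian integers which has a member of norm `n`, and for which
`H = max (|a|, |b|, |c|)` satisfies `H ^ 2 ≤ n ^ A`, has `rad (abc) > B H ^ lam`. (The product over a system `S` of
representatives of the Gaussian primes dividing `x` up to associates, `IsPrimeSystem S x`, is `rad x`.) -/
def Good (A B lam : ℝ) (n : ℕ) : Prop :=
  ∀ a b c : GaussianInt, a ≠ 0 → b ≠ 0 → c ≠ 0 → a + b = c → IsCoprime a b →
    (nsq a = n ∨ nsq b = n ∨ nsq c = n) → height (a, b, c) ^ 2 ≤ (n : ℝ) ^ A →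
      ∀ S : Finset GaussianInt, IsPrimeSystem S (a * b * c) →
        B * height (a, b, c) ^ lam < ∏ Q ∈ S, ‖GaussianInt.toComplex Q‖

lemma mem_All {B lam : ℝ} {a b c : GaussianInt} (ha : a ≠ 0) (hb : b ≠ 0) (hc : c ≠ 0) (habc : a + b = c)
    (hcop : IsCoprime a b) {S : Finset GaussianInt} (hS : IsPrimeSystem S (a * b * c))
    (h : ∏ Q ∈ S, ‖GaussianInt.toComplex Q‖ ≤ B * height (a, b, c) ^ lam) : (a, b, c) ∈ All B lam :=
  Set.mem_iUnion.2 ⟨height (a, b, c), ha, hb, hc, habc, hcop, le_refl _, S, hS, h⟩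

lemma of_mem_All {B lam : ℝ} {a b c : GaussianInt} (h : (a, b, c) ∈ All B lam) :
    a ≠ 0 ∧ b ≠ 0 ∧ c ≠ 0 ∧ a + b = c ∧ IsCoprime a b ∧ ∃ S : Finset GaussianInt, IsPrimeSystem S (a * b * c) ∧
      ∏ Q ∈ S, ‖GaussianInt.toComplex Q‖ ≤ B * height (a, b, c) ^ lam := by
  obtain ⟨Y, hY⟩ := Set.mem_iUnion.1 h
  obtain ⟨a1, a2, a3, a4, a5, -, a7⟩ := hY
  exact ⟨a1, a2, a3, a4, a5, a7⟩

lemma expo_nonneg {lam : ℝ} (h : 0 < lam) : 0 ≤ expo lam :=
  add_nonneg (le_min (by positivity) (by norm_num)) (le_max_right _ _)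

theorem count_nat {A B lam : ℝ} (hA : 0 < A) (hlam : 0 < lam) (ε : ℝ) (hε : 0 < ε) :
    ∃ C : ℝ, ∀ X : ℕ, 1 ≤ X →
      ({n : ℕ | 1 ≤ n ∧ n ≤ X ∧ True ∧ ¬ Good A B lam n}.ncard : ℝ) ≤ C * (X : ℝ) ^ (A * expo lam + ε) := by
  classical
  obtain ⟨C, h⟩ := Pool.Agent.Results.MP_dc323a_nt.WindowsWithoutExceptions.count B lam (ε / A) hlam (by positivity)
  refine ⟨3 * C, fun X hX => ?_⟩
  have hX1 : (1 : ℝ) ≤ X := by exact_mod_cast hX
  have hX0 : (0 : ℝ) < X := by linarith
  obtain ⟨hfin, h1⟩ := h ((X : ℝ) ^ A) (Real.one_le_rpow hX1 hA.le)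
  set S := {t | t ∈ All B lam ∧ height t ^ 2 ≤ (X : ℝ) ^ A} with hS
  have hsub : {n : ℕ | 1 ≤ n ∧ n ≤ X ∧ True ∧ ¬ Good A B lam n} ⊆
      (((hfin.toFinset.image (fun t => ⌊nsq t.1⌋₊)) ∪ ((hfin.toFinset.image (fun t => ⌊nsq t.2.1⌋₊)) ∪
        (hfin.toFinset.image (fun t => ⌊nsq t.2.2⌋₊))) : Finset ℕ) : Set ℕ) := by
    rintro n ⟨-, hnX, -, hbad⟩
    unfold Good at hbad
    push Not at hbad
    obtain ⟨a, b, c, ha, hb, hc, habc, hcop, hmem, hht, T, hT, hex⟩ := hbad
    have ht : (a, b, c) ∈ S := by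
      refine ⟨mem_All ha hb hc habc hcop hT hex, ?_⟩
      exact hht.trans (Real.rpow_le_rpow (Nat.cast_nonneg _) (by exact_mod_cast hnX) hA.le)
    simp only [coe_union, coe_image, Set.mem_union, Set.mem_image, Set.Finite.coe_toFinset]
    rcases hmem with h | h | h
    · exact Or.inl ⟨_, ht, by simp only; rw [h, Nat.floor_natCast]⟩
    · exact Or.inr (Or.inl ⟨_, ht, by simp only; rw [h, Nat.floor_natCast]⟩)
    · exact Or.inr (Or.inr ⟨_, ht, by simp only; rw [h, Nat.floor_natCast]⟩)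
  have h2 : ({n : ℕ | 1 ≤ n ∧ n ≤ X ∧ True ∧ ¬ Good A B lam n}).ncard ≤ 3 * S.ncard := by
    have e : S.ncard = hfin.toFinset.card := Set.ncard_eq_toFinset_card _ hfin
    have g0 := Set.ncard_le_ncard hsub (Finset.finite_toSet _)
    rw [Set.ncard_coe_finset] at g0
    have g1 := g0.trans (card_union_le _ _)
    have g2 := card_union_le (hfin.toFinset.image (fun t => ⌊nsq t.2.1⌋₊))
      (hfin.toFinset.image (fun t => ⌊nsq t.2.2⌋₊))
    have g3 := card_image_le (s := hfin.toFinset) (f := fun t => ⌊nsq t.1⌋₊)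
    have g4 := card_image_le (s := hfin.toFinset) (f := fun t => ⌊nsq t.2.1⌋₊)
    have g5 := card_image_le (s := hfin.toFinset) (f := fun t => ⌊nsq t.2.2⌋₊)
    omega
  calc (({n : ℕ | 1 ≤ n ∧ n ≤ X ∧ True ∧ ¬ Good A B lam n}).ncard : ℝ) ≤ ((3 * S.ncard : ℕ) : ℝ) := by
        exact_mod_cast h2
    _ = 3 * (S.ncard : ℝ) := by push_cast; ring
    _ ≤ 3 * (C * ((X : ℝ) ^ A) ^ (expo lam + ε / A)) := by linarith
    _ = 3 * C * (X : ℝ) ^ (A * expo lam + ε) := by
        rw [← Real.rpow_mul hX0.le]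
        have : A * (expo lam + ε / A) = A * expo lam + ε := by field_simp
        rw [this]
        ring

/-- the exceptional triples are summable -/
theorem summable_bad {B lam : ℝ} (hlam : 0 < lam) {p : ℝ} (hp : expo lam < p) :
    Summable fun x : {x : GaussianInt × GaussianInt × GaussianInt // x ∈ All B lam} => (height x.1 ^ 2) ^ (-p) := by
  obtain ⟨s, hs1, hs2⟩ := exists_between hp
  obtain ⟨C, h⟩ := Pool.Agent.Results.MP_dc323a_nt.WindowsWithoutExceptions.count B lam (s - expo lam) hlam (by linarith)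
  refine Pool.Agent.R479.DA.summable_heights
    (fun x : {x : GaussianInt × GaussianInt × GaussianInt // x ∈ All B lam} => height x.1 ^ 2)
    (fun x => ?_) (s := s) (p := p) (C := C) hs2 (by have := expo_nonneg hlam; linarith) ?_
  · obtain ⟨⟨a, b, c⟩, hx⟩ := x
    obtain ⟨ha, -⟩ := of_mem_All hx
    have h1 : (1 : ℝ) ≤ ‖GaussianInt.toComplex a‖ ^ 2 := by
      have h2 : ((a.norm.natAbs : ℕ) : ℝ) = ‖GaussianInt.toComplex a‖ ^ 2 := by
        rw [← Complex.normSq_eq_norm_sq, ← GaussianInt.intCast_real_norm]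
        have h3 : (0 : ℤ) ≤ a.norm := GaussianInt.norm_nonneg a
        rw [Nat.cast_natAbs, abs_of_nonneg h3]
      rw [← h2]
      have h4 : a.norm.natAbs ≠ 0 := by
        intro h5
        rw [Int.natAbs_eq_zero, GaussianInt.norm_eq_zero] at h5
        exact ha h5
      exact_mod_cast Nat.one_le_iff_ne_zero.2 h4
    refine h1.trans (pow_le_pow_left₀ (norm_nonneg _) (le_max_left _ _) 2)
  · intro X hX
    obtain ⟨h1, h2⟩ := h X hX
    have hmaps : Set.MapsTo (Subtype.val : {x : GaussianInt × GaussianInt × GaussianInt // x ∈ All B lam} →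
        GaussianInt × GaussianInt × GaussianInt) {x | height x.1 ^ 2 ≤ X} {t | t ∈ All B lam ∧ height t ^ 2 ≤ X} := by
      rintro ⟨x, hg⟩ hx
      exact ⟨hg, hx⟩
    have hinj : Set.InjOn (Subtype.val : {x : GaussianInt × GaussianInt × GaussianInt // x ∈ All B lam} →
        GaussianInt × GaussianInt × GaussianInt) {x | height x.1 ^ 2 ≤ X} := Subtype.val_injective.injOn
    refine ⟨h1.of_injOn hmaps hinj, ?_⟩
    have h3 := Set.ncard_le_ncard_of_injOn _ hmaps hinj h1
    have e : expo lam + (s - expo lam) = s := by ring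
    rw [e] at h2
    exact le_trans (by exact_mod_cast h3) h2

end Pool.Agent.K6.H40.GaussMembers
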