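import Pool.Agent.Results.MP_14cf73_nt.SequenceMembers

/-!
# The members of the exceptional triples of the log-power abc inequality
-/

set_option autoImplicit false

namespace Pool.Agent.K6.H40.LogAbc

open Finset
open Pool.Agent.Results.MP_14cf73_nt.SequenceMembers (Good Bad count)

theorem count_nat {A C M : ℝ} (hA : 0 < A) (hC : 0 < C) (hM : 0 < M) (ε : ℝ) (hε : 0 < ε) :
    ∃ K : ℝ, ∀ X : ℕ, 1 ≤ X →
      ({n : ℕ | 1 ≤ n ∧ n ≤ X ∧ True ∧ ¬ Good A C M n}.ncard : ℝ) ≤ K * (X : ℝ) ^ (2 * A / (3 * M) + ε) := by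
  classical
  obtain ⟨K, hK⟩ := count (A := A) (C := C) (M := M) hA hC hM ε hε
  refine ⟨K, fun X hX => ?_⟩
  have e : {n : ℕ | 1 ≤ n ∧ n ≤ X ∧ True ∧ ¬ Good A C M n} =
      (((Ioc 0 X).filter (fun m => m ∈ Bad A C M) : Finset ℕ) : Set ℕ) := by
    ext t
    rw [Finset.mem_coe, Finset.mem_filter, Finset.mem_Ioc]
    show (1 ≤ t ∧ t ≤ X ∧ True ∧ ¬ Good A C M t) ↔ ((0 < t ∧ t ≤ X) ∧ ¬ Good A C M t)
    constructor
    · rintro ⟨a1, a2, -, a3⟩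
      exact ⟨⟨a1, a2⟩, a3⟩
    · rintro ⟨⟨a1, a2⟩, a3⟩
      exact ⟨a1, a2, trivial, a3⟩
  rw [e, Set.ncard_coe_finset]
  convert hK X hX using 3

end Pool.Agent.K6.H40.LogAbc
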