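import Mathlib
import Pool.Agent.W66.GC

set_option autoImplicit false

/-!
# A majorant for pairs of integers with prescribed divisors and sifted cofactors
-/

namespace Pool.Agent.K6.H40.PairLaw

open Finset MeasureTheory
open Pool.Agent.W66V

/-- the majorant on the multiples of `a` -/
noncomputable def FA (a R M : ℕ) (w : ℕ → ℝ) (x : ℝ) : ℝ :=
  ∑ d ∈ DV R M, ∑ e ∈ DV R M, w d * w e * HD (a * Nat.lcm d e) x

lemma FA_eq {a : ℕ} (ha : 1 ≤ a) (R M : ℕ) (w : ℕ → ℝ) (x : ℝ) (S : Finset ℤ)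
    (hS : ∀ j : ℤ, |x - 1 / 2 - j| < 1 → j ∈ S) :
    FA a R M w x = ∑ j ∈ S, 2 * tr (x - 1 / 2 - j) *
      (∑ d ∈ (DV R M).filter (fun d : ℕ => ((a * d : ℕ) : ℤ) ∣ j), w d) ^ 2 := by
  unfold FA
  have h1 : ∀ d ∈ DV R M, ∀ e ∈ DV R M, w d * w e * HD (a * Nat.lcm d e) x =
      ∑ j ∈ S, 2 * tr (x - 1 / 2 - j) * ((if ((a * d : ℕ) : ℤ) ∣ j then w d else 0) *
        (if ((a * e : ℕ) : ℤ) ∣ j then w e else 0)) := by
    intro d hd e he
    have hl : 1 ≤ a * Nat.lcm d e :=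
      Nat.mul_pos ha (Nat.lcm_pos (mem_DV hd).2.1 (mem_DV he).2.1)
    rw [HD_sum hl x S hS, Finset.mul_sum]
    refine Finset.sum_congr rfl fun j _ => ?_
    have hdvd : ((a * Nat.lcm d e : ℕ) : ℤ) ∣ j ↔
        ((a * d : ℕ) : ℤ) ∣ j ∧ ((a * e : ℕ) : ℤ) ∣ j := by
      rw [Int.natCast_dvd, Int.natCast_dvd, Int.natCast_dvd, ← Nat.lcm_mul_left, Nat.lcm_dvd_iff]
    by_cases h3 : ((a * d : ℕ) : ℤ) ∣ j
    · by_cases h4 : ((a * e : ℕ) : ℤ) ∣ j
      · rw [if_pos (hdvd.2 ⟨h3, h4⟩), if_pos h3, if_pos h4]; ring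
      · rw [if_neg (fun h => h4 (hdvd.1 h).2), if_neg h4]; ring
    · rw [if_neg (fun h => h3 (hdvd.1 h).1), if_neg h3]; ring
  calc ∑ d ∈ DV R M, ∑ e ∈ DV R M, w d * w e * HD (a * Nat.lcm d e) x
      = ∑ d ∈ DV R M, ∑ e ∈ DV R M, ∑ j ∈ S, 2 * tr (x - 1 / 2 - j) *
        ((if ((a * d : ℕ) : ℤ) ∣ j then w d else 0) * (if ((a * e : ℕ) : ℤ) ∣ j then w e else 0)) :=
        Finset.sum_congr rfl fun d hd => Finset.sum_congr rfl fun e he => h1 d hd e he
    _ = ∑ d ∈ DV R M, ∑ j ∈ S, ∑ e ∈ DV R M, 2 * tr (x - 1 / 2 - j) *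
        ((if ((a * d : ℕ) : ℤ) ∣ j then w d else 0) * (if ((a * e : ℕ) : ℤ) ∣ j then w e else 0)) :=
        Finset.sum_congr rfl fun d _ => Finset.sum_comm
    _ = ∑ j ∈ S, ∑ d ∈ DV R M, ∑ e ∈ DV R M, 2 * tr (x - 1 / 2 - j) *
        ((if ((a * d : ℕ) : ℤ) ∣ j then w d else 0) * (if ((a * e : ℕ) : ℤ) ∣ j then w e else 0)) :=
        Finset.sum_comm
    _ = _ := by
        refine Finset.sum_congr rfl fun j _ => ?_
        rw [Finset.sum_filter, sq, Finset.sum_mul_sum, Finset.mul_sum]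
        refine Finset.sum_congr rfl fun d _ => ?_
        rw [Finset.mul_sum]

lemma FA_nonneg {a : ℕ} (ha : 1 ≤ a) (R M : ℕ) (w : ℕ → ℝ) (x : ℝ) : 0 ≤ FA a R M w x := by
  rw [FA_eq ha R M w x _ (near_mem x)]
  refine Finset.sum_nonneg fun j _ => ?_
  have := tr_nonneg (x - 1 / 2 - j)
  positivity

lemma FA_continuous (a R M : ℕ) (w : ℕ → ℝ) : Continuous (FA a R M w) := by
  unfold FA
  refine continuous_finsetSum _ fun d _ => continuous_finsetSum _ fun e _ => ?_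
  exact continuous_const.mul (HD_continuous _)

lemma FA_ge_one {a R M : ℕ} (ha : 1 ≤ a) (hR : 1 ≤ R) {w : ℕ → ℝ} (hw1 : w 1 = 1) {x : ℝ} {N : ℕ}
    (h1 : ((a * N : ℕ) : ℝ) ≤ x) (h2 : x ≤ ((a * N : ℕ) : ℝ) + 1)
    (hN : ∀ l : ℕ, l.Prime → l ≤ R → ¬ l ∣ M → ¬ l ∣ N) : 1 ≤ FA a R M w x := by
  rw [FA_eq ha R M w x _ (near_mem x)]
  have hab : |x - 1 / 2 - ((a * N : ℕ) : ℤ)| ≤ 1 / 2 := by
    rw [Int.cast_natCast, abs_le]
    constructor <;> linarith
  have hmem : ((a * N : ℕ) : ℤ) ∈ Finset.Icc (⌊x⌋ - 2) (⌊x⌋ + 2) :=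
    near_mem x _ (lt_of_le_of_lt hab (by norm_num))
  have hset : (DV R M).filter (fun d : ℕ => ((a * d : ℕ) : ℤ) ∣ ((a * N : ℕ) : ℤ)) = {1} := by
    ext d
    rw [mem_filter, mem_singleton]
    constructor
    · rintro ⟨hd, hdN⟩
      obtain ⟨k1, k2, k3⟩ := mem_DV hd
      have hdN' : d ∣ N := Nat.dvd_of_mul_dvd_mul_left ha (Int.natCast_dvd_natCast.1 hdN)
      by_contra hne
      obtain ⟨l, hl, hld⟩ := Nat.exists_prime_and_dvd hne
      have hlP := (Pool.Agent.Helper112.E456.SieveAux.prime_dvd_PR hl).1 (hld.trans k1)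
      exact hN l hl hlP.1 hlP.2 (hld.trans hdN')
    · rintro rfl
      refine ⟨one_mem_DV hR, ?_⟩
      rw [mul_one]
      exact Int.natCast_dvd_natCast.2 (Dvd.intro N rfl)
  have hterm : 1 ≤ 2 * tr (x - 1 / 2 - ((a * N : ℕ) : ℤ)) *
      (∑ d ∈ (DV R M).filter (fun d : ℕ => ((a * d : ℕ) : ℤ) ∣ ((a * N : ℕ) : ℤ)), w d) ^ 2 := by
    rw [hset, Finset.sum_singleton, hw1, one_pow, mul_one]
    have : 1 / 2 ≤ tr (x - 1 / 2 - ((a * N : ℕ) : ℤ)) := le_max_of_le_left (by linarith)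
    linarith
  refine hterm.trans ?_
  refine Finset.single_le_sum (f := fun j : ℤ => 2 * tr (x - 1 / 2 - j) *
      (∑ d ∈ (DV R M).filter (fun d : ℕ => ((a * d : ℕ) : ℤ) ∣ j), w d) ^ 2) (fun j _ => ?_) hmem
  have := tr_nonneg (x - 1 / 2 - j)
  positivity

lemma FA_prod (a R M : ℕ) (w : ℕ → ℝ) (x : ℝ) :
    FA a R M w x = ∑ c ∈ DV R M ×ˢ DV R M, w c.1 * w c.2 * HD (a * Nat.lcm c.1 c.2) x := by
  unfold FA
  rw [Finset.sum_product]

theorem majorant {a b R M : ℕ} {w : ℕ → ℝ} {J ε X : ℝ}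
    (hw : ∀ d ∈ DV R M, |w d| ≤ R)
    (hwJ : ∑ d ∈ DV R M, ∑ e ∈ DV R M, w d * w e / ((Nat.lcm d e : ℕ) : ℝ) = 1 / J)
    (hX : 0 < X) (hε : 0 ≤ ε) {ψ : ℝ → ℝ} (hψ : ContinuousOn ψ (Set.Icc X (Real.exp 1 * X)))
    (hcorr : ∀ D E : ℕ, 1 ≤ D → D ≤ R ^ 2 → 1 ≤ E → E ≤ R ^ 2 →
      |(∫ x in X..(Real.exp 1 * X), HD (a * D) x * HD (b * E) (ψ x) / x) -
        4 / (((a * D : ℕ) : ℝ) * ((b * E : ℕ) : ℝ))| ≤ ε) :
    ∫ x in X..(Real.exp 1 * X), FA a R M w x * FA b R M w (ψ x) / x ≤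
      4 / (a * b * J ^ 2) + (R : ℝ) ^ 8 * ε := by
  have hle : X ≤ Real.exp 1 * X := exp_one_mul_le hX
  set T := DV R M ×ˢ DV R M with hT
  set c : ℕ × ℕ → ℝ := fun a => w a.1 * w a.2 with hc
  set L : ℕ × ℕ → ℕ := fun a => Nat.lcm a.1 a.2 with hL
  have hLb : ∀ a ∈ T, 1 ≤ L a ∧ L a ≤ R ^ 2 := by
    intro a ha
    rw [hT, mem_product] at ha
    obtain ⟨_, k2, k3⟩ := mem_DV ha.1
    obtain ⟨_, l2, l3⟩ := mem_DV ha.2
    refine ⟨Nat.lcm_pos k2 l2, ?_⟩
    calc L a ≤ a.1 * a.2 := Nat.le_of_dvd (Nat.mul_pos k2 l2) (Nat.lcm_dvd_mul _ _)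
      _ ≤ R * R := Nat.mul_le_mul k3 l3
      _ = R ^ 2 := (sq R).symm
  have hcb : ∀ a ∈ T, |c a| ≤ (R : ℝ) ^ 2 := by
    intro a ha
    rw [hT, mem_product] at ha
    simp only [hc]
    rw [abs_mul, sq]
    exact mul_le_mul (hw _ ha.1) (hw _ ha.2) (abs_nonneg _) (Nat.cast_nonneg _)
  have hTc : (T.card : ℝ) ≤ (R : ℝ) ^ 2 := by
    rw [hT, card_product, sq]
    push_cast
    have h := card_DV R M
    have h' : ((DV R M).card : ℝ) ≤ R := by exact_mod_cast h
    exact mul_le_mul h' h' (Nat.cast_nonneg _) (Nat.cast_nonneg _)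
  have hcont : ∀ D E : ℕ, ContinuousOn (fun x => HD D x * HD E (ψ x) / x)
      (Set.Icc X (Real.exp 1 * X)) := by
    intro D E
    refine ContinuousOn.div ?_ continuousOn_id (fun x hx => (hX.trans_le hx.1).ne')
    exact (HD_continuous D).continuousOn.mul ((HD_continuous E).comp_continuousOn hψ)
  have hii : ∀ D E : ℕ, IntervalIntegrable (fun x => HD D x * HD E (ψ x) / x) volume X
      (Real.exp 1 * X) := fun D E => (hcont D E).intervalIntegrable_of_Icc hle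
  have hexp : ∀ x : ℝ, FA a R M w x * FA b R M w (ψ x) / x =
      ∑ s ∈ T, ∑ t ∈ T, c s * c t * (HD (a * L s) x * HD (b * L t) (ψ x) / x) := by
    intro x
    rw [FA_prod, FA_prod, Finset.sum_mul_sum, Finset.sum_div]
    refine Finset.sum_congr rfl fun a _ => ?_
    rw [Finset.sum_div]
    refine Finset.sum_congr rfl fun b _ => ?_
    simp only [hc, hL]
    ring
  have hint : ∫ x in X..(Real.exp 1 * X), FA a R M w x * FA b R M w (ψ x) / x =
      ∑ s ∈ T, ∑ t ∈ T, c s * c t *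
        ∫ x in X..(Real.exp 1 * X), HD (a * L s) x * HD (b * L t) (ψ x) / x := by
    simp only [hexp]
    rw [intervalIntegral.integral_finsetSum]
    · refine Finset.sum_congr rfl fun s _ => ?_
      rw [intervalIntegral.integral_finsetSum]
      · refine Finset.sum_congr rfl fun t _ => ?_
        rw [intervalIntegral.integral_const_mul]
      · intro t _
        exact (hii _ _).const_mul _
    · intro s _
      have h0 := IntervalIntegrable.sum T
        (f := fun t x => c s * c t * (HD (a * L s) x * HD (b * L t) (ψ x) / x))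
        (fun t _ => (hii (a * L s) (b * L t)).const_mul (c s * c t))
      have e0 : (∑ t ∈ T, fun x => c s * c t * (HD (a * L s) x * HD (b * L t) (ψ x) / x)) =
          fun x => ∑ t ∈ T, c s * c t * (HD (a * L s) x * HD (b * L t) (ψ x) / x) := by
        funext x; rw [Finset.sum_apply]
      rw [← e0]; exact h0
  have hmain : ∑ s ∈ T, ∑ t ∈ T, c s * c t *
      (4 / (((a * L s : ℕ) : ℝ) * ((b * L t : ℕ) : ℝ))) = 4 / (a * b * J ^ 2) := by
    have h1 : ∑ s ∈ T, c s / ((L s : ℕ) : ℝ) = 1 / J := by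
      rw [← hwJ, hT, Finset.sum_product]
    have h2 : ∑ s ∈ T, ∑ t ∈ T, c s * c t * (4 / (((a * L s : ℕ) : ℝ) * ((b * L t : ℕ) : ℝ))) =
        4 / (a * b) * ((∑ s ∈ T, c s / ((L s : ℕ) : ℝ)) * (∑ t ∈ T, c t / ((L t : ℕ) : ℝ))) := by
      rw [Finset.sum_mul_sum, Finset.mul_sum]
      refine Finset.sum_congr rfl fun s _ => ?_
      rw [Finset.mul_sum]
      refine Finset.sum_congr rfl fun t _ => ?_
      push_cast
      simp only [div_eq_mul_inv, mul_inv]
      ring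
    rw [h2, h1]
    simp only [div_eq_mul_inv, mul_inv, one_mul]
    ring
  rw [hint]
  have hdiff : (∑ s ∈ T, ∑ t ∈ T, c s * c t *
      ∫ x in X..(Real.exp 1 * X), HD (a * L s) x * HD (b * L t) (ψ x) / x) -
      ∑ s ∈ T, ∑ t ∈ T, c s * c t * (4 / (((a * L s : ℕ) : ℝ) * ((b * L t : ℕ) : ℝ))) ≤
      (R : ℝ) ^ 8 * ε := by
    rw [← Finset.sum_sub_distrib]
    have h1 : ∀ s ∈ T, (∑ t ∈ T, c s * c t *
        ∫ x in X..(Real.exp 1 * X), HD (a * L s) x * HD (b * L t) (ψ x) / x) -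
        ∑ t ∈ T, c s * c t * (4 / (((a * L s : ℕ) : ℝ) * ((b * L t : ℕ) : ℝ))) ≤
        (R : ℝ) ^ 2 * ((R : ℝ) ^ 4 * ε) := by
      intro s hs
      rw [← Finset.sum_sub_distrib]
      have h2 : ∀ t ∈ T, c s * c t *
          (∫ x in X..(Real.exp 1 * X), HD (a * L s) x * HD (b * L t) (ψ x) / x) -
          c s * c t * (4 / (((a * L s : ℕ) : ℝ) * ((b * L t : ℕ) : ℝ))) ≤ (R : ℝ) ^ 4 * ε := by
        intro t ht
        rw [← mul_sub]
        refine (le_abs_self _).trans ?_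
        rw [abs_mul, abs_mul]
        have h3 := hcorr (L s) (L t) (hLb s hs).1 (hLb s hs).2 (hLb t ht).1 (hLb t ht).2
        calc |c s| * |c t| * _ ≤ ((R : ℝ) ^ 2 * (R : ℝ) ^ 2) * ε := by
              refine mul_le_mul (mul_le_mul (hcb s hs) (hcb t ht) (abs_nonneg _) (by positivity)) h3
                (abs_nonneg _) (by positivity)
          _ = _ := by ring
      calc _ ≤ ∑ t ∈ T, (R : ℝ) ^ 4 * ε := Finset.sum_le_sum h2
        _ = T.card * ((R : ℝ) ^ 4 * ε) := by rw [Finset.sum_const, nsmul_eq_mul]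
        _ ≤ _ := mul_le_mul_of_nonneg_right hTc (by positivity)
    calc _ ≤ ∑ s ∈ T, (R : ℝ) ^ 2 * ((R : ℝ) ^ 4 * ε) := Finset.sum_le_sum h1
      _ = T.card * ((R : ℝ) ^ 2 * ((R : ℝ) ^ 4 * ε)) := by rw [Finset.sum_const, nsmul_eq_mul]
      _ ≤ (R : ℝ) ^ 2 * ((R : ℝ) ^ 2 * ((R : ℝ) ^ 4 * ε)) :=
          mul_le_mul_of_nonneg_right hTc (by positivity)
      _ = _ := by ring
  linarith

/-- the logarithmic integral along an exponential curve -/
lemma window {Φ : ℝ → ℝ} (hc : ContinuousOn Φ (Set.Ioi 0)) (h0 : ∀ x, 0 < x → 0 ≤ Φ x)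
    {E g b0 : ℝ} (hE : 0 < E) (hg : |g| ≤ Real.exp b0 * E / 8) :
    ∫ t in b0..(b0 + 1), Φ (Real.exp t * E + g) ≤
      2 * ((∫ x in (Real.exp b0 * E + g)..(Real.exp 1 * (Real.exp b0 * E + g)), Φ x / x) +
        ∫ x in (Real.exp 1 * (Real.exp b0 * E + g))..(Real.exp 1 * (Real.exp 1 *
          (Real.exp b0 * E + g))), Φ x / x) := by
  set X := Real.exp b0 * E + g with hX
  have hb := Real.exp_pos b0
  have hgb := abs_le.1 hg
  have hEb : 0 < Real.exp b0 * E := by positivity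
  have hX0 : 0 < X := by linarith [hgb.1]
  have he2 : (2 : ℝ) ≤ Real.exp 1 := by linarith [Real.add_one_le_exp (1 : ℝ)]
  have hXe : X ≤ Real.exp 1 * X := exp_one_mul_le hX0
  have hXee : Real.exp 1 * X ≤ Real.exp 1 * (Real.exp 1 * X) := exp_one_mul_le (by linarith)
  have hpos : ∀ t ∈ Set.Icc b0 (b0 + 1), Real.exp b0 * E ≤ Real.exp t * E := fun t ht =>
    mul_le_mul_of_nonneg_right (Real.exp_le_exp.2 ht.1) hE.le
  have hf0 : ∀ t ∈ Set.Icc b0 (b0 + 1), 0 < Real.exp t * E + g := fun t ht => by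
    have := hpos t ht
    linarith [hgb.1]
  -- the change of variables
  have himg : (fun t => Real.exp t * E + g) '' Set.uIcc b0 (b0 + 1) ⊆
      {x : ℝ | 0 < x ∧ 0 < x - g} := by
    rintro _ ⟨t, ht, rfl⟩
    rw [Set.uIcc_of_le (by linarith)] at ht
    refine ⟨hf0 t ht, ?_⟩
    simp only [add_sub_cancel_right]
    positivity
  have hGc : ContinuousOn (fun x => Φ x / (x - g)) {x : ℝ | 0 < x ∧ 0 < x - g} :=
    (hc.mono fun x hx => hx.1).div (by fun_prop) fun x hx => hx.2.ne'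
  have hcov := intervalIntegral.integral_comp_mul_deriv' (a := b0) (b := b0 + 1)
    (f := fun t => Real.exp t * E + g) (f' := fun t => Real.exp t * E)
    (g := fun x => Φ x / (x - g)) (fun t _ => by
      have := (Real.hasDerivAt_exp t).mul_const E
      exact this.add_const g)
    (by fun_prop) (hGc.mono himg)
  have e1 : ∫ t in b0..(b0 + 1), Φ (Real.exp t * E + g) =
      ∫ x in X..(Real.exp (b0 + 1) * E + g), Φ x / (x - g) := by
    rw [← hcov]
    refine intervalIntegral.integral_congr fun t _ => ?_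
    have h1 := (Real.exp_pos t).ne'
    simp only [Function.comp, add_sub_cancel_right]
    field_simp
  rw [e1]
  have hend : Real.exp (b0 + 1) * E + g ≤ Real.exp 1 * (Real.exp 1 * X) := by
    rw [add_comm b0 1, Real.exp_add, hX]
    have h1 : Real.exp 1 * (Real.exp 1 * (Real.exp b0 * E + g)) =
        Real.exp 1 * (Real.exp b0 * E) * Real.exp 1 + Real.exp 1 ^ 2 * g := by ring
    rw [h1]
    have h2 : -(Real.exp 1 ^ 2 * (Real.exp b0 * E / 8)) ≤ Real.exp 1 ^ 2 * g := by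
      have := mul_le_mul_of_nonneg_left hgb.1 (sq_nonneg (Real.exp 1))
      linarith
    have h3 : g ≤ Real.exp b0 * E / 8 := hgb.2
    nlinarith [mul_nonneg (sub_nonneg.2 he2) hEb.le, mul_nonneg (mul_nonneg (sub_nonneg.2 he2)
      (sub_nonneg.2 he2)) hEb.le]
  have hbeg : X ≤ Real.exp (b0 + 1) * E + g := by
    rw [hX]
    have : Real.exp b0 * E ≤ Real.exp (b0 + 1) * E :=
      mul_le_mul_of_nonneg_right (Real.exp_le_exp.2 (by linarith)) hE.le
    linarith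
  have hIcc : Set.Icc X (Real.exp 1 * (Real.exp 1 * X)) ⊆ Set.Ioi 0 := fun x hx => hX0.trans_le hx.1
  have hxg : ∀ x, X ≤ x → x / 2 ≤ x - g := by
    intro x hx
    have h1 : g ≤ Real.exp b0 * E / 8 := hgb.2
    have h2 : Real.exp b0 * E * (7 / 8) ≤ X := by linarith [hgb.1]
    linarith
  have hc2 : ContinuousOn (fun x => Φ x / x) (Set.Icc X (Real.exp 1 * (Real.exp 1 * X))) :=
    (hc.mono hIcc).div continuousOn_id fun x hx => (hIcc hx).ne'
  have hc3 : ContinuousOn (fun x => Φ x / (x - g)) (Set.Icc X (Real.exp 1 * (Real.exp 1 * X))) :=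
    hGc.mono fun x hx => ⟨hIcc hx, by have := hxg x hx.1; have := hIcc hx; simp at this; linarith⟩
  have hi1 : IntervalIntegrable (fun x => Φ x / (x - g)) volume X (Real.exp (b0 + 1) * E + g) :=
    (hc3.mono (Set.Icc_subset_Icc_right hend)).intervalIntegrable_of_Icc hbeg
  have hi2 : IntervalIntegrable (fun x => 2 * (Φ x / x)) volume X (Real.exp (b0 + 1) * E + g) :=
    ((hc2.mono (Set.Icc_subset_Icc_right hend)).intervalIntegrable_of_Icc hbeg).const_mul 2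
  have hi3 : IntervalIntegrable (fun x => 2 * (Φ x / x)) volume X
      (Real.exp 1 * (Real.exp 1 * X)) :=
    (hc2.intervalIntegrable_of_Icc (hbeg.trans hend)).const_mul 2
  calc ∫ x in X..(Real.exp (b0 + 1) * E + g), Φ x / (x - g) ≤
        ∫ x in X..(Real.exp (b0 + 1) * E + g), 2 * (Φ x / x) := by
        refine intervalIntegral.integral_mono_on hbeg hi1 hi2 fun x hx => ?_
        have hx0 : 0 < x := hX0.trans_le hx.1
        have h1 := hxg x hx.1
        have h2 := h0 x hx0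
        rw [div_le_iff₀ (by linarith)]
        have h3 : 2 * (Φ x / x) * (x / 2) = Φ x := by field_simp
        calc Φ x = 2 * (Φ x / x) * (x / 2) := h3.symm
          _ ≤ _ := mul_le_mul_of_nonneg_left h1 (by positivity)
    _ ≤ ∫ x in X..(Real.exp 1 * (Real.exp 1 * X)), 2 * (Φ x / x) := by
        refine intervalIntegral.integral_mono_interval le_rfl hbeg hend ?_ hi3
        refine (ae_restrict_iff' measurableSet_Ioc).2 (Filter.Eventually.of_forall fun x hx => ?_)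
        have hx0 : 0 < x := hX0.trans hx.1
        have := h0 x hx0
        simp only [Pi.zero_apply]
        positivity
    _ = _ := by
        rw [intervalIntegral.integral_const_mul]
        congr 1
        rw [intervalIntegral.integral_add_adjacent_intervals]
        · exact (hc2.mono (Set.Icc_subset_Icc_right hXee)).intervalIntegrable_of_Icc hXe
        · exact (hc2.mono (Set.Icc_subset_Icc_left hXe)).intervalIntegrable_of_Icc hXee

end Pool.Agent.K6.H40.PairLaw
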