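import Mathlib
import Pool.Agent.W66.RB

set_option autoImplicit false

/-!
# Integers with few large prime factors: the medium part
-/

namespace Pool.Agent.K6.H40.PairLaw

open Finset
open Pool.Agent.H305R2 (VV)

/-- the number of prime factors of `m` larger than `l`, counted with multiplicity -/
def om (l m : ℕ) : ℕ := (m.primeFactorsList.filter (fun r => l < r)).length

open Classical in
/-- the products of at most `k` primes in `(l, R]` -/
noncomputable def DD (l R k : ℕ) : Finset ℕ :=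
  (Finset.Icc 1 (R ^ k)).filter (fun a => a ∈ Nat.factoredNumbers (Finset.Ioc l R) ∧
    ArithmeticFunction.cardFactors a ≤ k)

lemma mem_DD {l R k a : ℕ} : a ∈ DD l R k ↔ (1 ≤ a ∧ a ≤ R ^ k) ∧
    a ∈ Nat.factoredNumbers (Finset.Ioc l R) ∧ ArithmeticFunction.cardFactors a ≤ k := by
  classical
  unfold DD
  rw [mem_filter, mem_Icc]

lemma card_DD (l R k : ℕ) : (DD l R k).card ≤ R ^ k := by
  classical
  have h : DD l R k ⊆ Icc 1 (R ^ k) := fun a ha => mem_Icc.2 (mem_DD.1 ha).1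
  have := Finset.card_le_card h
  rwa [Nat.card_Icc, Nat.add_sub_cancel] at this

lemma cover {l R k N : ℕ} (hN : N ≠ 0) (hR : 1 ≤ R) (h : om l N ≤ k) :
    ∃ a ∈ DD l R k, ∃ N' : ℕ, N = a * N' ∧ ∀ q : ℕ, q.Prime → l < q → q ≤ R → ¬ q ∣ N' := by
  classical
  set L := N.primeFactorsList with hL
  set L1 := L.filter (fun q => q ∈ Finset.Ioc l R) with hL1
  set L2 := L.filter (fun q => !(decide (q ∈ Finset.Ioc l R))) with hL2
  have hperm : (L1 ++ L2).Perm L := List.filter_append_perm _ L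
  have hprod : L1.prod * L2.prod = N := by
    rw [← List.prod_append, hperm.prod_eq, hL]
    exact Nat.prod_primeFactorsList hN
  have hpr : ∀ q ∈ L, q.Prime := fun q hq => Nat.prime_of_mem_primeFactorsList hq
  have hpr1 : ∀ q ∈ L1, q.Prime := fun q hq => hpr q (List.mem_of_mem_filter hq)
  have hmem1 : ∀ q ∈ L1, l < q ∧ q ≤ R := fun q hq => by
    have := List.of_mem_filter hq
    simpa using this
  have hlen : L1.length ≤ k := by
    refine le_trans ?_ h
    unfold om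
    rw [← hL, hL1, ← List.countP_eq_length_filter, ← List.countP_eq_length_filter]
    refine List.countP_mono_left fun x _ hx => ?_
    simp only [decide_eq_true_eq, Finset.mem_Ioc] at hx ⊢
    exact hx.1
  have hcard : ArithmeticFunction.cardFactors L1.prod = L1.length := by
    rw [ArithmeticFunction.cardFactors_apply]
    exact (Nat.primeFactorsList_unique rfl hpr1).length_eq.symm
  have hfac : L1.prod ∈ Nat.factoredNumbers (Finset.Ioc l R) := Nat.prod_mem_factoredNumbers _ N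
  have hpos : 1 ≤ L1.prod := Nat.pos_of_ne_zero (Nat.ne_zero_of_mem_factoredNumbers hfac)
  have hle : L1.prod ≤ R ^ k := by
    calc L1.prod ≤ R ^ L1.length := List.prod_le_pow_card _ _ fun x hx => (hmem1 x hx).2
      _ ≤ R ^ k := Nat.pow_le_pow_right hR hlen
  refine ⟨L1.prod, mem_DD.2 ⟨⟨hpos, hle⟩, hfac, by rw [hcard]; exact hlen⟩, L2.prod, hprod.symm,
    fun q hq hlq hqR hd => ?_⟩
  obtain ⟨r, hr, hqr⟩ := (Prime.dvd_prod_iff hq.prime).1 hd
  have hr1 : r ∈ L := List.mem_of_mem_filter hr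
  have hqr' : q = r := (Nat.prime_dvd_prime_iff_eq hq (hpr r hr1)).1 hqr
  subst hqr'
  have := List.of_mem_filter hr
  simp only [Finset.mem_Ioc, Bool.not_eq_eq_eq_not, Bool.not_true, decide_eq_false_iff_not,
    not_and, not_le] at this
  exact absurd (this hlq) (by omega)

/-- the function `c ^ Ω(n) / n` -/
noncomputable def hom (c : ℝ) : ℕ →* ℝ where
  toFun n := c ^ (ArithmeticFunction.cardFactors n) * (n : ℝ)⁻¹
  map_one' := by simp
  map_mul' m n := by
    rcases Nat.eq_zero_or_pos m with hm | hm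
    · subst hm; simp
    · rcases Nat.eq_zero_or_pos n with hn | hn
      · subst hn; simp
      · rw [ArithmeticFunction.cardFactors_mul hm.ne' hn.ne', pow_add]
        push_cast
        rw [mul_inv]
        ring

lemma hom_apply (c : ℝ) (n : ℕ) :
    hom c n = c ^ (ArithmeticFunction.cardFactors n) * (n : ℝ)⁻¹ := rfl

lemma hom_prime (c : ℝ) {q : ℕ} (hq : q.Prime) : hom c q = c * (q : ℝ)⁻¹ := by
  rw [hom_apply, ArithmeticFunction.cardFactors_apply_prime hq, pow_one]

lemma rankin {l R k : ℕ} {c : ℝ} (hc0 : 0 < c) (hc1 : c ≤ 1) :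
    ∑ a ∈ DD l R k, (1 : ℝ) / a ≤ (c ^ k)⁻¹ * (VV R) ^ c := by
  classical
  have hq2 : ∀ q : ℕ, q.Prime → (2 : ℝ) ≤ q := fun q hq => by exact_mod_cast hq.two_le
  have hlt : ∀ {q : ℕ}, q.Prime → ‖hom c q‖ < 1 := by
    intro q hq
    have h2 := hq2 q hq
    have h3 : (q : ℝ)⁻¹ ≤ 2⁻¹ := inv_anti₀ (by norm_num) h2
    have h4 : 0 < (q : ℝ)⁻¹ := by positivity
    rw [hom_prime c hq, Real.norm_of_nonneg (by positivity)]
    nlinarith
  have hsum := (EulerProduct.summable_and_hasSum_factoredNumbers_prod_filter_prime_geometric hlt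
    (Finset.Ioc l R)).2
  have hsum' : HasSum ((Nat.factoredNumbers (Finset.Ioc l R)).indicator (fun n => hom c n))
      (∏ p ∈ Finset.Ioc l R with p.Prime, (1 - hom c p)⁻¹) := by
    rw [← hasSum_subtype_iff_indicator]
    exact hsum
  have hnn : ∀ n : ℕ, 0 ≤ hom c n := fun n => by rw [hom_apply]; positivity
  have h1 : ∑ a ∈ DD l R k, hom c a ≤ ∏ p ∈ Finset.Ioc l R with p.Prime, (1 - hom c p)⁻¹ := by
    have h := sum_le_hasSum (DD l R k) (fun n _ => Set.indicator_nonneg (fun m _ => hnn m) n) hsum'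
    refine le_trans (le_of_eq ?_) h
    refine Finset.sum_congr rfl fun a ha => ?_
    rw [Set.indicator_of_mem (mem_DD.1 ha).2.1]
  have h2 : ∏ p ∈ Finset.Ioc l R with p.Prime, (1 - hom c p)⁻¹ ≤ (VV R) ^ c := by
    have e1 : ∀ p ∈ (Finset.Ioc l R).filter Nat.Prime, (1 - hom c p)⁻¹ ≤
        ((1 - (p : ℝ)⁻¹)⁻¹) ^ c := by
      intro p hp
      have hpp := (Finset.mem_filter.1 hp).2
      have g2 := hq2 p hpp
      have g3 : (p : ℝ)⁻¹ ≤ 2⁻¹ := inv_anti₀ (by norm_num) g2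
      have g4 : 0 < (p : ℝ)⁻¹ := by positivity
      rw [hom_prime c hpp]
      have g5 : 0 < 1 - (p : ℝ)⁻¹ := by linarith
      have g6 : (1 + -(p : ℝ)⁻¹) ^ c ≤ 1 + c * -(p : ℝ)⁻¹ :=
        rpow_one_add_le_one_add_mul_self (by linarith) hc0.le hc1
      rw [Real.inv_rpow g5.le]
      refine inv_anti₀ (Real.rpow_pos_of_pos g5 c) ?_
      have g7 : (1 - (p : ℝ)⁻¹) ^ c = (1 + -(p : ℝ)⁻¹) ^ c := by rw [sub_eq_add_neg]
      rw [g7]
      linarith
    have e2 : ∀ p ∈ (Finset.Ioc l R).filter Nat.Prime, 0 ≤ (1 - hom c p)⁻¹ := by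
      intro p hp
      have := hlt (Finset.mem_filter.1 hp).2
      rw [Real.norm_of_nonneg (hnn p)] at this
      exact inv_nonneg.2 (by linarith)
    have e3 : ∀ p ∈ (Finset.Icc 1 R).filter Nat.Prime, (1 : ℝ) ≤ (1 - (p : ℝ)⁻¹)⁻¹ := by
      intro p hp
      have hpp := (Finset.mem_filter.1 hp).2
      have g2 := hq2 p hpp
      have g3 : (p : ℝ)⁻¹ ≤ 2⁻¹ := inv_anti₀ (by norm_num) g2
      have g4 : 0 < (p : ℝ)⁻¹ := by positivity
      exact (one_le_inv₀ (by linarith)).2 (by linarith)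
    calc ∏ p ∈ (Finset.Ioc l R).filter Nat.Prime, (1 - hom c p)⁻¹ ≤
        ∏ p ∈ (Finset.Ioc l R).filter Nat.Prime, ((1 - (p : ℝ)⁻¹)⁻¹) ^ c :=
          Finset.prod_le_prod e2 e1
      _ ≤ ∏ p ∈ (Finset.Icc 1 R).filter Nat.Prime, ((1 - (p : ℝ)⁻¹)⁻¹) ^ c := by
          have hsub : (Finset.Ioc l R).filter Nat.Prime ⊆ (Finset.Icc 1 R).filter Nat.Prime := by
            intro p hp
            rw [Finset.mem_filter, Finset.mem_Ioc] at hp
            rw [Finset.mem_filter, Finset.mem_Icc]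
            exact ⟨⟨hp.2.one_lt.le, hp.1.2⟩, hp.2⟩
          have hone : ∀ p ∈ (Finset.Icc 1 R).filter Nat.Prime, (1 : ℝ) ≤ ((1 - (p : ℝ)⁻¹)⁻¹) ^ c :=
            fun p hp => Real.one_le_rpow (e3 p hp) hc0.le
          rw [← Finset.prod_sdiff hsub]
          refine le_mul_of_one_le_left (Finset.prod_nonneg fun p hp => ?_) ?_
          · linarith [hone p (hsub hp)]
          · refine Finset.prod_induction _ (fun x : ℝ => 1 ≤ x) (fun a b ha hb => ?_) le_rfl
              (fun p hp => hone p (Finset.mem_sdiff.1 hp).1)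
            nlinarith
      _ = (∏ p ∈ (Finset.Icc 1 R).filter Nat.Prime, (1 - (p : ℝ)⁻¹)⁻¹) ^ c :=
          Real.finsetProd_rpow _ _ (fun p hp => by linarith [e3 p hp]) c
      _ = _ := rfl
  have h3 : ∀ a ∈ DD l R k, (1 : ℝ) / a ≤ (c ^ k)⁻¹ * hom c a := by
    intro a ha
    have hk := (mem_DD.1 ha).2.2
    rw [hom_apply, one_div, ← mul_assoc]
    have : 1 ≤ (c ^ k)⁻¹ * c ^ (ArithmeticFunction.cardFactors a) := by
      rw [← div_eq_inv_mul, one_le_div (by positivity)]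
      exact pow_le_pow_of_le_one hc0.le hc1 hk
    calc (a : ℝ)⁻¹ = 1 * (a : ℝ)⁻¹ := (one_mul _).symm
      _ ≤ _ := mul_le_mul_of_nonneg_right this (by positivity)
  calc ∑ a ∈ DD l R k, (1 : ℝ) / a ≤ ∑ a ∈ DD l R k, (c ^ k)⁻¹ * hom c a := Finset.sum_le_sum h3
    _ = (c ^ k)⁻¹ * ∑ a ∈ DD l R k, hom c a := by rw [Finset.mul_sum]
    _ ≤ _ := mul_le_mul_of_nonneg_left (h1.trans h2) (by positivity)

end Pool.Agent.K6.H40.PairLaw
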