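import Mathlib
import Pool.Agent.K6.H40.PairA
import Pool.Agent.K6.H40.PairB

set_option autoImplicit false

/-!
# The measure of the set where both integers have few large prime factors: one scale
-/

namespace Pool.Agent.K6.H40.PairLaw

open Finset MeasureTheory
open Pool.Agent.W66V

/-- the error term of the correlations -/
noncomputable def ee (A : ℝ) (Q : ℕ) (X : ℝ) : ℝ :=
  (Q * (Z32 + 2)) ^ 2 * Real.sqrt (A * Q ^ 3 / X)

lemma ee_nonneg (A : ℝ) (Q : ℕ) (X : ℝ) : 0 ≤ ee A Q X := by unfold ee; positivity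

lemma ee_anti {A : ℝ} (hA : 0 ≤ A) (Q : ℕ) {X X' : ℝ} (hX : 0 < X) (h : X ≤ X') :
    ee A Q X' ≤ ee A Q X := by
  unfold ee
  refine mul_le_mul_of_nonneg_left (Real.sqrt_le_sqrt ?_) (by positivity)
  exact div_le_div_of_nonneg_left (by positivity) hX h

/-- the majorant of the set of pairs -/
noncomputable def PP (l R k k' M : ℕ) (w : ℕ → ℝ) (θ κ x : ℝ) : ℝ :=
  ∑ a ∈ DD l R k, ∑ b ∈ DD l R k', FA a R M w x * FA b R M w (θ * x + κ)

lemma PP_continuous (l R k k' M : ℕ) (w : ℕ → ℝ) (θ κ : ℝ) : Continuous (PP l R k k' M w θ κ) := by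
  unfold PP
  refine continuous_finsetSum _ fun a _ => continuous_finsetSum _ fun b _ => ?_
  exact (FA_continuous a R M w).mul ((FA_continuous b R M w).comp (by fun_prop))

lemma PP_nonneg (l R k k' M : ℕ) (w : ℕ → ℝ) (θ κ x : ℝ) : 0 ≤ PP l R k k' M w θ κ x := by
  unfold PP
  refine Finset.sum_nonneg fun a ha => Finset.sum_nonneg fun b hb => ?_
  exact mul_nonneg (FA_nonneg (mem_DD.1 ha).1.1 _ _ _ _) (FA_nonneg (mem_DD.1 hb).1.1 _ _ _ _)

lemma PP_ge_one {l R k k' M : ℕ} {w : ℕ → ℝ} {θ κ x : ℝ} (hR : 1 ≤ R) (hw1 : w 1 = 1)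
    (hMl : ∀ q : ℕ, q.Prime → ¬ q ∣ M → l < q) (hx : 1 ≤ x) (hy : 1 ≤ θ * x + κ)
    (h1 : om l ⌊x⌋₊ ≤ k) (h2 : om l ⌊θ * x + κ⌋₊ ≤ k') : 1 ≤ PP l R k k' M w θ κ x := by
  have hN1 : ⌊x⌋₊ ≠ 0 := by
    have := (Nat.one_le_floor_iff x).2 hx
    omega
  have hN2 : ⌊θ * x + κ⌋₊ ≠ 0 := by
    have := (Nat.one_le_floor_iff (θ * x + κ)).2 hy
    omega
  obtain ⟨a, ha, N1, e1, f1⟩ := cover hN1 hR h1
  obtain ⟨b, hb, N2, e2, f2⟩ := cover hN2 hR h2
  have g1 : 1 ≤ FA a R M w x := by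
    refine FA_ge_one (N := N1) (mem_DD.1 ha).1.1 hR hw1 ?_ ?_ ?_
    · rw [← e1]; exact Nat.floor_le (by linarith)
    · rw [← e1]; exact (Nat.lt_floor_add_one x).le
    · intro q hq hqR hqM
      exact f1 q hq (hMl q hq hqM) hqR
  have g2 : 1 ≤ FA b R M w (θ * x + κ) := by
    refine FA_ge_one (N := N2) (mem_DD.1 hb).1.1 hR hw1 ?_ ?_ ?_
    · rw [← e2]; exact Nat.floor_le (by linarith)
    · rw [← e2]; exact (Nat.lt_floor_add_one _).le
    · intro q hq hqR hqM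
      exact f2 q hq (hMl q hq hqM) hqR
  have hnn : ∀ a ∈ DD l R k, ∀ b ∈ DD l R k', 0 ≤ FA a R M w x * FA b R M w (θ * x + κ) :=
    fun a ha b hb => mul_nonneg (FA_nonneg (mem_DD.1 ha).1.1 _ _ _ _)
      (FA_nonneg (mem_DD.1 hb).1.1 _ _ _ _)
  calc (1 : ℝ) = 1 * 1 := by ring
    _ ≤ FA a R M w x * FA b R M w (θ * x + κ) := mul_le_mul g1 g2 zero_le_one (by linarith)
    _ ≤ ∑ b ∈ DD l R k', FA a R M w x * FA b R M w (θ * x + κ) :=
        Finset.single_le_sum (f := fun b => FA a R M w x * FA b R M w (θ * x + κ))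
          (fun b hb => hnn a ha b hb) hb
    _ ≤ _ := Finset.single_le_sum
        (f := fun a => ∑ b ∈ DD l R k', FA a R M w x * FA b R M w (θ * x + κ))
        (fun a ha => Finset.sum_nonneg fun b hb => hnn a ha b hb) ha

section

variable {θ A : ℝ} (hθ : 1 ≤ θ) (hA : 1 ≤ A)
  (hdio : ∀ a b : ℕ, 1 ≤ a → 1 ≤ b → 1 ≤ |(a : ℝ) - b * θ| * (A * (a + b)))
include hθ hA hdio

lemma half {l k k' m R M : ℕ} (hk : k ≤ m) (hk' : k' ≤ m) (hR : 1 ≤ R) {w : ℕ → ℝ} {J : ℝ} (hw : ∀ d ∈ DV R M, |w d| ≤ R)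
    (hwJ : ∑ d ∈ DV R M, ∑ e ∈ DV R M, w d * w e / ((Nat.lcm d e : ℕ) : ℝ) = 1 / J)
    (κ : ℝ) {X : ℝ} (hX : 1 ≤ X) :
    ∫ x in X..(Real.exp 1 * X), PP l R k k' M w θ κ x / x ≤
      4 / J ^ 2 * ((∑ a ∈ DD l R k, (1 : ℝ) / a) * ∑ a ∈ DD l R k', (1 : ℝ) / a) +
        ((R : ℝ) ^ m) ^ 2 * ((R : ℝ) ^ 8 * ee A (R ^ (m + 2)) X) := by
  have hX0 : 0 < X := by linarith
  have hle : X ≤ Real.exp 1 * X := exp_one_mul_le hX0
  set D := DD l R k with hD
  set D' := DD l R k' with hD'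
  have hii : ∀ a b : ℕ, IntervalIntegrable (fun x => FA a R M w x * FA b R M w (θ * x + κ) / x)
      volume X (Real.exp 1 * X) := by
    intro a b
    refine ContinuousOn.intervalIntegrable_of_Icc hle ?_
    refine ContinuousOn.div ?_ continuousOn_id (fun x hx => (hX0.trans_le hx.1).ne')
    exact ((FA_continuous a R M w).mul ((FA_continuous b R M w).comp (by fun_prop))).continuousOn
  have hint : ∫ x in X..(Real.exp 1 * X), PP l R k k' M w θ κ x / x =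
      ∑ a ∈ D, ∑ b ∈ D',
        ∫ x in X..(Real.exp 1 * X), FA a R M w x * FA b R M w (θ * x + κ) / x := by
    have e0 : ∀ x : ℝ, PP l R k k' M w θ κ x / x =
        ∑ a ∈ D, ∑ b ∈ D', FA a R M w x * FA b R M w (θ * x + κ) / x := by
      intro x
      unfold PP
      rw [Finset.sum_div]
      exact Finset.sum_congr rfl fun a _ => by rw [Finset.sum_div]
    simp only [e0]
    rw [intervalIntegral.integral_finsetSum]
    · refine Finset.sum_congr rfl fun a _ => ?_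
      rw [intervalIntegral.integral_finsetSum]
      intro b _
      exact hii a b
    · intro a _
      have h0 := IntervalIntegrable.sum D'
        (f := fun b x => FA a R M w x * FA b R M w (θ * x + κ) / x) (fun b _ => hii a b)
      have e1 : (∑ b ∈ D', fun x => FA a R M w x * FA b R M w (θ * x + κ) / x) =
          fun x => ∑ b ∈ D', FA a R M w x * FA b R M w (θ * x + κ) / x := by
        funext x; rw [Finset.sum_apply]
      rw [← e1]; exact h0
  have hQ : 1 ≤ R ^ (m + 2) := Nat.one_le_pow _ _ hR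
  have hone : ∀ a ∈ D, ∀ b ∈ D',
      ∫ x in X..(Real.exp 1 * X), FA a R M w x * FA b R M w (θ * x + κ) / x ≤
        4 / (a * b * J ^ 2) + (R : ℝ) ^ 8 * ee A (R ^ (m + 2)) X := by
    intro a ha b hb
    have ha1 := (mem_DD.1 ha).1
    have hb1 := (mem_DD.1 hb).1
    refine majorant hw hwJ hX0 (ee_nonneg _ _ _) (ψ := fun x => θ * x + κ) (by fun_prop) ?_
    intro d e hd hd2 he he2
    have k1 : 1 ≤ a * d := Nat.mul_pos ha1.1 hd
    have k2 : a * d ≤ R ^ (m + 2) := by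
      rw [pow_add]; exact Nat.mul_le_mul (ha1.2.trans (Nat.pow_le_pow_right hR hk)) hd2
    have k3 : 1 ≤ b * e := Nat.mul_pos hb1.1 he
    have k4 : b * e ≤ R ^ (m + 2) := by
      rw [pow_add]; exact Nat.mul_le_mul (hb1.2.trans (Nat.pow_le_pow_right hR hk')) he2
    exact corr_lin (Q := R ^ (m + 2)) (A := A) (β := θ) (κ := κ) (X := X) hQ hA hθ hX hdio
      k1 k2 k3 k4
  rw [hint]
  have hcard : (D.card : ℝ) ≤ (R : ℝ) ^ m := by
    have := (card_DD l R k).trans (Nat.pow_le_pow_right hR hk)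
    exact_mod_cast this
  have hcard' : (D'.card : ℝ) ≤ (R : ℝ) ^ m := by
    have := (card_DD l R k').trans (Nat.pow_le_pow_right hR hk')
    exact_mod_cast this
  have hE0 : 0 ≤ (R : ℝ) ^ 8 * ee A (R ^ (m + 2)) X := mul_nonneg (by positivity) (ee_nonneg _ _ _)
  calc ∑ a ∈ D, ∑ b ∈ D',
        ∫ x in X..(Real.exp 1 * X), FA a R M w x * FA b R M w (θ * x + κ) / x ≤
      ∑ a ∈ D, ∑ b ∈ D', (4 / (a * b * J ^ 2) + (R : ℝ) ^ 8 * ee A (R ^ (m + 2)) X) :=
        Finset.sum_le_sum fun a ha => Finset.sum_le_sum fun b hb => hone a ha b hb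
    _ = 4 / J ^ 2 * ((∑ a ∈ D, (1 : ℝ) / a) * ∑ a ∈ D', (1 : ℝ) / a) +
        ((D.card : ℝ) * D'.card) * ((R : ℝ) ^ 8 * ee A (R ^ (m + 2)) X) := by
        simp only [Finset.sum_add_distrib, Finset.sum_const, nsmul_eq_mul]
        congr 1
        · rw [Finset.sum_mul_sum, Finset.mul_sum]
          refine Finset.sum_congr rfl fun a _ => ?_
          rw [Finset.mul_sum]
          refine Finset.sum_congr rfl fun b _ => ?_
          simp only [div_eq_mul_inv, mul_inv, one_mul]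
          ring
        · ring
    _ ≤ _ := by
        have h1 : (D.card : ℝ) * D'.card ≤ ((R : ℝ) ^ m) ^ 2 := by
          rw [sq]
          exact mul_le_mul hcard hcard' (Nat.cast_nonneg _) (by positivity)
        have := mul_le_mul_of_nonneg_right h1 hE0
        linarith

/-- the bound in one window -/
theorem window_bound {l k k' m R M : ℕ} (hk : k ≤ m) (hk' : k' ≤ m) (hR : 1 ≤ R) (hM : M ≠ 0)
    (hMl : ∀ q : ℕ, q.Prime → ¬ q ∣ M → l < q) {E g κ b0 : ℝ} (hE : 0 < E)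
    (hg : |g| ≤ Real.exp b0 * E / 8) (hκ : |κ| ≤ Real.exp b0 * E / 8)
    (hX : 16 ≤ Real.exp b0 * E) :
    ∃ J : ℝ, 0 < J ∧ Real.log (R + 1) ≤ 2 * ((M : ℝ) / (Nat.totient M : ℝ)) * J ∧
      (volume.restrict (Set.Ioc b0 (b0 + 1))).real {t | om l ⌊Real.exp t * E + g⌋₊ ≤ k ∧
        om l ⌊θ * (Real.exp t * E + g) + κ⌋₊ ≤ k'} ≤
      16 / J ^ 2 * ((∑ a ∈ DD l R k, (1 : ℝ) / a) * ∑ a ∈ DD l R k', (1 : ℝ) / a) +
        4 * (((R : ℝ) ^ m) ^ 2 * ((R : ℝ) ^ 8 * ee A (R ^ (m + 2)) (Real.exp b0 * E + g))) := by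
  obtain ⟨w, J, hw1, hwb, hwJ, hJ0, hJlog⟩ := weights R M hR hM
  refine ⟨J, hJ0, hJlog, ?_⟩
  have hgb := abs_le.1 hg
  have hκb := abs_le.1 hκ
  set X := Real.exp b0 * E + g with hXdef
  have hX14 : 14 ≤ X := by linarith [hgb.1]
  have hX0 : 0 < X := by linarith
  set F : ℝ → ℝ := fun t => PP l R k k' M w θ κ (Real.exp t * E + g) with hF
  have hFc : Continuous F := (PP_continuous l R k k' M w θ κ).comp (by fun_prop)
  have hF0 : ∀ t, 0 ≤ F t := fun t => PP_nonneg _ _ _ _ _ _ _ _ _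
  set μ := volume.restrict (Set.Ioc b0 (b0 + 1)) with hμ
  have hFi : Integrable F μ := hFc.integrableOn_Ioc
  have h1 : μ.real {t | om l ⌊Real.exp t * E + g⌋₊ ≤ k ∧ om l ⌊θ * (Real.exp t * E + g) + κ⌋₊ ≤ k'} ≤
      μ.real {t | 1 ≤ F t} := by
    refine ENNReal.toReal_mono (measure_ne_top μ _) (measure_mono_ae ?_)
    refine (ae_restrict_iff' measurableSet_Ioc).2 (Filter.Eventually.of_forall fun t ht hP => ?_)
    obtain ⟨p1, p2⟩ := hP
    have hx : Real.exp b0 * E ≤ Real.exp t * E :=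
      mul_le_mul_of_nonneg_right (Real.exp_le_exp.2 ht.1.le) hE.le
    have hx1 : X ≤ Real.exp t * E + g := by linarith
    have hy : Real.exp t * E + g ≤ θ * (Real.exp t * E + g) := by
      have : 0 ≤ Real.exp t * E + g := by linarith
      nlinarith
    show 1 ≤ F t
    exact PP_ge_one hR hw1 hMl (by linarith) (by linarith [hκb.1, hgb.1]) p1 p2
  have h2 : μ.real {t | 1 ≤ F t} ≤ ∫ t, F t ∂μ := by
    have := mul_meas_ge_le_integral_of_nonneg (μ := μ) (Filter.Eventually.of_forall hF0) hFi 1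
    rwa [one_mul] at this
  have h3 : ∫ t, F t ∂μ = ∫ t in b0..(b0 + 1), F t := by
    rw [intervalIntegral.integral_of_le (by linarith)]
  have h4 := window (Φ := PP l R k k' M w θ κ) (PP_continuous l R k k' M w θ κ).continuousOn
    (fun x _ => PP_nonneg _ _ _ _ _ _ _ _ _) hE hg
  rw [← hXdef] at h4
  have h5 := half hθ hA hdio (l := l) hk hk' hR hwb hwJ κ (X := X) (by linarith)
  have hXe : X ≤ Real.exp 1 * X := exp_one_mul_le hX0
  have h6 := half hθ hA hdio (l := l) hk hk' hR hwb hwJ κ (X := Real.exp 1 * X) (by linarith)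
  have h7 : ((R : ℝ) ^ m) ^ 2 * ((R : ℝ) ^ 8 * ee A (R ^ (m + 2)) (Real.exp 1 * X)) ≤
      ((R : ℝ) ^ m) ^ 2 * ((R : ℝ) ^ 8 * ee A (R ^ (m + 2)) X) := by
    have := ee_anti (by linarith : 0 ≤ A) (R ^ (m + 2)) hX0 hXe
    gcongr
  have h8 : 16 / J ^ 2 * ((∑ a ∈ DD l R k, (1 : ℝ) / a) * ∑ a ∈ DD l R k', (1 : ℝ) / a) =
      4 * (4 / J ^ 2 * ((∑ a ∈ DD l R k, (1 : ℝ) / a) * ∑ a ∈ DD l R k', (1 : ℝ) / a)) := by ring
  calc _ ≤ ∫ t in b0..(b0 + 1), F t := h1.trans (h2.trans h3.le)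
    _ ≤ _ := h4
    _ ≤ _ := by rw [h8]; linarith

end

end Pool.Agent.K6.H40.PairLaw
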