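import Mathlib
import Pool.Agent.K6.H40.PairC
import Pool.Agent.W66.RB

set_option autoImplicit false

/-!
# The measure of the set where both integers have few large prime factors: all scales
-/

namespace Pool.Agent.K6.H40.PairLaw

open Finset MeasureTheory Filter Topology
open Pool.Agent.W66V
open Pool.Agent.H305R2 (VV)

/-- numerical bound for the sieve -/
lemma J_num {J C1 L n r : ℝ} {m R : ℕ} (hJ : 0 < J) (hC1 : 0 < C1) (hL : 0 < L)
    (hn : 3 ≤ n) (hm : (m : ℝ) ≤ Real.log n)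
    (hR : Real.exp (L * n / (64 * (m + 3))) ≤ R + 1)
    (hr : r ≤ C1 * Real.log n) (hJR : Real.log (R + 1) ≤ 2 * r * J) :
    16 / J ^ 2 ≤ 16 * (512 * C1 / L) ^ 2 * ((Real.log n) ^ 4 / n ^ 2) := by
  have hn0 : 0 < n := by linarith
  have hl1 : 1 ≤ Real.log n := by
    rw [Real.le_log_iff_exp_le hn0]
    have := Real.exp_one_lt_d9
    linarith
  have hl0 : 0 < Real.log n := by linarith
  have hk3 : (m : ℝ) + 3 ≤ 4 * Real.log n := by linarith
  have hk0 : (0 : ℝ) < (m : ℝ) + 3 := by positivity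
  have h1 : L * n / (64 * (m + 3)) ≤ Real.log (R + 1) := by
    rw [Real.le_log_iff_exp_le (by positivity)]; exact hR
  have h2 : L * n / (64 * (m + 3)) ≤ 2 * (C1 * Real.log n) * J := by
    refine h1.trans (hJR.trans ?_)
    gcongr
  have h3 : L * n ≤ 2 * (C1 * Real.log n) * J * (64 * (m + 3)) := by
    rwa [div_le_iff₀ (by positivity)] at h2
  have h4 : L * n ≤ 512 * C1 * (Real.log n) ^ 2 * J := by
    calc L * n ≤ 2 * (C1 * Real.log n) * J * (64 * (m + 3)) := h3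
      _ ≤ 2 * (C1 * Real.log n) * J * (64 * (4 * Real.log n)) := by gcongr
      _ = _ := by ring
  have h5 : 1 / J ≤ 512 * C1 / L * ((Real.log n) ^ 2 / n) := by
    rw [div_le_iff₀ hJ]
    calc (1 : ℝ) = (L * n) / (L * n) := by field_simp
      _ ≤ (512 * C1 * (Real.log n) ^ 2 * J) / (L * n) := div_le_div_of_nonneg_right h4 (by positivity)
      _ = _ := by field_simp
  have h6 : (1 / J) ^ 2 ≤ (512 * C1 / L) ^ 2 * ((Real.log n) ^ 4 / n ^ 2) := by
    calc (1 / J) ^ 2 ≤ (512 * C1 / L * ((Real.log n) ^ 2 / n)) ^ 2 :=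
          pow_le_pow_left₀ (by positivity) h5 2
      _ = _ := by ring
  have e1 : 16 / J ^ 2 = 16 * (1 / J) ^ 2 := by ring
  rw [e1, mul_assoc]
  exact mul_le_mul_of_nonneg_left h6 (by norm_num)

/-- numerical bound for the sum over the divisors -/
lemma S_num {C2 L c n V : ℝ} {k m R : ℕ} (hC2 : 0 < C2) (hL : 0 < L)
    (hc0 : 0 < c) (hc1 : c ≤ 1) (hn : 3 ≤ n) (hk : (k : ℝ) ≤ c * Real.log n)
    (hRle : (R : ℝ) ≤ Real.exp (L * n / (64 * (m + 3))))
    (hR1 : 1 ≤ R) (hV0 : 0 ≤ V) (hV : V ≤ C2 * Real.log R) :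
    (c ^ k)⁻¹ * V ^ c ≤ (C2 * L) ^ c * n ^ (c * (1 - Real.log c)) := by
  have hn0 : 0 < n := by linarith
  have hRl : Real.log R ≤ L * n := by
    have hR0 : (0 : ℝ) < R := by exact_mod_cast hR1
    have := Real.log_le_log hR0 hRle
    rw [Real.log_exp] at this
    refine this.trans (div_le_self (by positivity) ?_)
    nlinarith [Nat.cast_nonneg (α := ℝ) m]
  have h7 : V ^ c ≤ (C2 * L) ^ c * n ^ c := by
    rw [← Real.mul_rpow (by positivity) hn0.le]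
    refine Real.rpow_le_rpow hV0 ?_ hc0.le
    calc V ≤ C2 * Real.log R := hV
      _ ≤ C2 * (L * n) := mul_le_mul_of_nonneg_left hRl hC2.le
      _ = _ := by ring
  have hlc : Real.log c ≤ 0 := Real.log_nonpos hc0.le hc1
  have h8 : (c ^ k)⁻¹ ≤ n ^ (-(c * Real.log c)) := by
    rw [← Real.rpow_natCast, ← Real.rpow_neg hc0.le, Real.rpow_def_of_pos hc0, Real.rpow_def_of_pos hn0]
    refine Real.exp_le_exp.2 ?_
    have : Real.log c * (c * Real.log n) ≤ Real.log c * k := by nlinarith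
    linarith
  calc (c ^ k)⁻¹ * V ^ c ≤ n ^ (-(c * Real.log c)) * ((C2 * L) ^ c * n ^ c) :=
        mul_le_mul h8 h7 (Real.rpow_nonneg hV0 c) (by positivity)
    _ = (C2 * L) ^ c * (n ^ c * n ^ (-(c * Real.log c))) := by ring
    _ = _ := by rw [← Real.rpow_add hn0]; ring_nf

/-- numerical bound for the error term -/
lemma err_num {L A Z X a n : ℝ} {k R : ℕ} (hL : 0 < L) (hA : 1 ≤ A) (hZ : 0 ≤ Z) (hn : 0 ≤ n) (hR1 : 1 ≤ R)
    (hRle : (R : ℝ) ≤ Real.exp (L * n / (64 * (k + 3)))) (ha : 0 < a) (hX : a * Real.exp (L * n) ≤ X) :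
    ((R : ℝ) ^ k) ^ 2 * ((R : ℝ) ^ 8 * (((((R ^ (k + 2) : ℕ) : ℝ) * (Z + 2)) ^ 2 *
      Real.sqrt (A * ((R ^ (k + 2) : ℕ) : ℝ) ^ 3 / X)))) ≤
      (Z + 2) ^ 2 * Real.sqrt (A / a) * Real.exp (-(L * n / 4)) := by
  have hR1r : (1 : ℝ) ≤ R := by exact_mod_cast hR1
  set z := Real.exp (L * n / 64) with hz
  have hz0 : 0 < z := Real.exp_pos _
  have hz1 : 1 ≤ z := Real.one_le_exp (by positivity)
  have h1 : (R : ℝ) ^ (k + 3) ≤ z := by
    calc (R : ℝ) ^ (k + 3) ≤ (Real.exp (L * n / (64 * (k + 3)))) ^ (k + 3) :=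
          pow_le_pow_left₀ (by positivity) hRle _
      _ = z := by
          rw [← Real.exp_nat_mul, hz]
          congr 1
          push_cast
          field_simp
  have h2 : ((R : ℝ) ^ k) ^ 2 * (R : ℝ) ^ 8 ≤ z ^ 3 := by
    calc ((R : ℝ) ^ k) ^ 2 * (R : ℝ) ^ 8 = (R : ℝ) ^ (2 * k + 8) := by rw [← pow_mul, ← pow_add]; ring_nf
      _ ≤ (R : ℝ) ^ (3 * (k + 3)) := pow_le_pow_right₀ hR1r (by omega)
      _ = ((R : ℝ) ^ (k + 3)) ^ 3 := by rw [← pow_mul]; ring_nf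
      _ ≤ z ^ 3 := pow_le_pow_left₀ (by positivity) h1 3
  have h3 : ((R ^ (k + 2) : ℕ) : ℝ) ≤ z := by
    push_cast
    exact (pow_le_pow_right₀ hR1r (by omega)).trans h1
  have h30 : (0 : ℝ) ≤ ((R ^ (k + 2) : ℕ) : ℝ) := Nat.cast_nonneg _
  have hX0 : 0 < X := lt_of_lt_of_le (by positivity) hX
  have h4 : Real.sqrt (A * ((R ^ (k + 2) : ℕ) : ℝ) ^ 3 / X) ≤
      Real.sqrt (A / a) * Real.exp (-(29 * (L * n) / 64)) := by
    have h5 : A * ((R ^ (k + 2) : ℕ) : ℝ) ^ 3 / X ≤ A / a * (Real.exp (-(29 * (L * n) / 64))) ^ 2 := by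
      calc A * ((R ^ (k + 2) : ℕ) : ℝ) ^ 3 / X ≤ A * z ^ 3 / (a * Real.exp (L * n)) := by
            gcongr
        _ = A / a * (z ^ 3 * Real.exp (-(L * n))) := by rw [Real.exp_neg]; field_simp
        _ ≤ A / a * (z ^ 6 * Real.exp (-(L * n))) := by
            have : z ^ 3 ≤ z ^ 6 := pow_le_pow_right₀ hz1 (by norm_num)
            gcongr
        _ = A / a * (Real.exp (-(29 * (L * n) / 64))) ^ 2 := by
            congr 1
            rw [hz, ← Real.exp_nat_mul, ← Real.exp_nat_mul, ← Real.exp_add]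
            congr 1
            push_cast
            ring
    calc Real.sqrt (A * ((R ^ (k + 2) : ℕ) : ℝ) ^ 3 / X) ≤
          Real.sqrt (A / a * (Real.exp (-(29 * (L * n) / 64))) ^ 2) := Real.sqrt_le_sqrt h5
      _ = _ := by rw [Real.sqrt_mul (by positivity), Real.sqrt_sq (Real.exp_pos _).le]
  calc ((R : ℝ) ^ k) ^ 2 * ((R : ℝ) ^ 8 * (((((R ^ (k + 2) : ℕ) : ℝ) * (Z + 2)) ^ 2 *
        Real.sqrt (A * ((R ^ (k + 2) : ℕ) : ℝ) ^ 3 / X)))) =
        (((R : ℝ) ^ k) ^ 2 * (R : ℝ) ^ 8) * ((((R ^ (k + 2) : ℕ) : ℝ) * (Z + 2)) ^ 2 *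
        Real.sqrt (A * ((R ^ (k + 2) : ℕ) : ℝ) ^ 3 / X)) := by ring
    _ ≤ z ^ 3 * ((z * (Z + 2)) ^ 2 * (Real.sqrt (A / a) * Real.exp (-(29 * (L * n) / 64)))) := by
        gcongr
    _ = (Z + 2) ^ 2 * Real.sqrt (A / a) * (z ^ 5 * Real.exp (-(29 * (L * n) / 64))) := by ring
    _ ≤ (Z + 2) ^ 2 * Real.sqrt (A / a) * Real.exp (-(L * n / 4)) := by
        refine mul_le_mul_of_nonneg_left ?_ (by positivity)
        rw [hz, ← Real.exp_nat_mul, ← Real.exp_add]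
        refine Real.exp_le_exp.2 ?_
        push_cast
        have : 0 ≤ L * n := by positivity
        linarith

/-- the modulus with all small primes -/
lemma modulus : ∃ C : ℝ, 0 < C ∧ ∀ᶠ l : ℕ in atTop, ∃ M : ℕ, M ≠ 0 ∧
    (∀ q : ℕ, q.Prime → ¬ q ∣ M → l < q) ∧ (M : ℝ) / (Nat.totient M : ℝ) ≤ C * Real.log l :=
  ratio_primorial

/-- the measures are summable -/
theorem scale_bound {α θ A c c' : ℝ} (hα : 1 < α) (hθ : 1 ≤ θ) (hA : 1 ≤ A)
    (hdio : ∀ a b : ℕ, 1 ≤ a → 1 ≤ b → 1 ≤ |(a : ℝ) - b * θ| * (A * (a + b)))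
    (hc0 : 0 < c) (hc1 : c ≤ 1) (hc0' : 0 < c') (hc1' : c' ≤ 1)
    (hσ : c * (1 - Real.log c) + c' * (1 - Real.log c') < 1) {g κ : ℕ → ℝ} (b0 : ℝ)
    (hg : ∀ᶠ l : ℕ in atTop, 8 * |g l| ≤ Real.exp b0 * α ^ l)
    (hκ : ∀ᶠ l : ℕ in atTop, 8 * |κ l| ≤ Real.exp b0 * α ^ l) :
    ∃ K η : ℝ, 0 < η ∧ ∀ᶠ l : ℕ in atTop,
      (volume.restrict (Set.Ioc b0 (b0 + 1))).real {t | om l ⌊Real.exp t * α ^ l + g l⌋₊ ≤
        ⌊c * Real.log l⌋₊ ∧ om l ⌊θ * (Real.exp t * α ^ l + g l) + κ l⌋₊ ≤ ⌊c' * Real.log l⌋₊} ≤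
      K * (l : ℝ) ^ (-(1 + η)) := by
  have hα0 : 0 < α := by linarith
  set L := Real.log α with hL
  have hL0 : 0 < L := Real.log_pos hα
  set σ := c * (1 - Real.log c) + c' * (1 - Real.log c') with hσd
  set η := (1 - σ) / 2 with hη
  have hη0 : 0 < η := by rw [hη]; linarith
  obtain ⟨C1, hC1, hmod⟩ := modulus
  obtain ⟨C2, hC2, hVV⟩ := Pool.Agent.W66.VV_le_log
  set a := 7 / 8 * Real.exp b0 with ha
  have ha0 : 0 < a := by positivity
  -- the number `R` tends to infinity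
  have hRt : Tendsto (fun l : ℕ => ⌊Real.exp (L * l / (64 * ((⌊Real.log l⌋₊ : ℝ) + 3)))⌋₊)
      atTop atTop := by
    have h0 : Tendsto (fun l : ℕ => Real.exp (L / 256 * (l / Real.log l))) atTop atTop := by
      have h1 : Tendsto (fun x : ℝ => x / Real.log x) atTop atTop := by
        have h2 : Tendsto (fun x : ℝ => Real.log x / x) atTop (𝓝[>] 0) := by
          rw [tendsto_nhdsWithin_iff]
          refine ⟨Real.isLittleO_log_id_atTop.tendsto_div_nhds_zero, ?_⟩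
          filter_upwards [eventually_gt_atTop (1 : ℝ)] with x hx
          exact div_pos (Real.log_pos hx) (by linarith)
        have h3 := h2.inv_tendsto_nhdsGT_zero
        refine h3.congr fun x => ?_
        simp only [Pi.inv_apply, inv_div]
      exact Real.tendsto_exp_atTop.comp (((h1.comp tendsto_natCast_atTop_atTop).const_mul_atTop
        (by positivity : 0 < L / 256)))
    refine tendsto_nat_floor_atTop.comp (tendsto_atTop_mono' _ ?_ h0)
    filter_upwards [eventually_ge_atTop 3] with l hl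
    have hl3 : (3 : ℝ) ≤ l := by exact_mod_cast hl
    have hl0 : (0 : ℝ) < l := by linarith
    have hlog : 1 ≤ Real.log l := by
      rw [Real.le_log_iff_exp_le hl0]
      have := Real.exp_one_lt_d9
      linarith
    refine Real.exp_le_exp.2 ?_
    have hk : (⌊Real.log l⌋₊ : ℝ) ≤ Real.log l := Nat.floor_le (by positivity)
    have h4 : (⌊Real.log l⌋₊ : ℝ) + 3 ≤ 4 * Real.log l := by linarith
    have h5 : (0 : ℝ) < (⌊Real.log l⌋₊ : ℝ) + 3 := by positivity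
    calc L / 256 * (l / Real.log l) = L * l / (64 * (4 * Real.log l)) := by field_simp; norm_num
      _ ≤ L * l / (64 * ((⌊Real.log l⌋₊ : ℝ) + 3)) := by gcongr
  -- growth
  have hgrow : ∀ᶠ l : ℕ in atTop, 16 ≤ Real.exp b0 * α ^ l :=
    ((tendsto_pow_atTop_atTop_of_one_lt hα).const_mul_atTop (Real.exp_pos b0)).eventually_ge_atTop 16
  -- comparison of the sizes
  have hlog4 : ∀ᶠ l : ℕ in atTop, (Real.log l) ^ 4 * (l : ℝ) ^ (σ - 2) ≤ (l : ℝ) ^ (-(1 + η)) := by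
    have h1 := ((isLittleO_log_rpow_rpow_atTop (s := η) 4 hη0).bound (by norm_num : (0 : ℝ) < 1))
    have h2 := tendsto_natCast_atTop_atTop.eventually h1
    filter_upwards [h2, eventually_ge_atTop 3] with l hl hl3
    have hl3' : (3 : ℝ) ≤ l := by exact_mod_cast hl3
    have hl0 : (0 : ℝ) < l := by linarith
    have hlog : 0 ≤ Real.log l := Real.log_nonneg (by linarith)
    rw [one_mul, Real.norm_of_nonneg (by positivity), Real.norm_of_nonneg (by positivity)] at hl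
    have h3 : Real.log l ^ (4 : ℝ) = Real.log l ^ (4 : ℕ) := by
      rw [← Real.rpow_natCast]; norm_num
    rw [h3] at hl
    calc (Real.log l) ^ 4 * (l : ℝ) ^ (σ - 2) ≤ (l : ℝ) ^ η * (l : ℝ) ^ (σ - 2) :=
          mul_le_mul_of_nonneg_right hl (by positivity)
      _ = (l : ℝ) ^ (-(1 + η)) := by
          rw [← Real.rpow_add hl0]
          congr 1
          rw [hη]; ring
  have hexp : ∀ᶠ l : ℕ in atTop, Real.exp (-(L * l / 4)) ≤ (l : ℝ) ^ (-(1 + η)) := by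
    have h1 := ((isLittleO_exp_neg_mul_rpow_atTop (a := L / 4) (by positivity) (-(1 + η))).bound
      (by norm_num : (0 : ℝ) < 1))
    have h2 := tendsto_natCast_atTop_atTop.eventually h1
    filter_upwards [h2] with l hl
    rw [one_mul, Real.norm_of_nonneg (by positivity), Real.norm_of_nonneg (by positivity)] at hl
    refine le_trans (le_of_eq ?_) hl
    congr 1
    ring
  refine ⟨16 * (512 * C1 / L) ^ 2 * ((C2 * L) ^ c * (C2 * L) ^ c') +
    4 * ((Z32 + 2) ^ 2 * Real.sqrt (A / a)), η, hη0, ?_⟩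
  filter_upwards [hg, hκ, hmod, hRt.eventually hVV, hRt.eventually (eventually_ge_atTop 1), hgrow, hlog4, hexp,
    eventually_ge_atTop 3] with l hgl hκl hmodl hVl hR1 hgr hl4 he4 hl3
  obtain ⟨M, hM0, hMl, hMr⟩ := hmodl
  have hl3' : (3 : ℝ) ≤ l := by exact_mod_cast hl3
  have hl0 : (0 : ℝ) < l := by linarith
  have hlog : 0 ≤ Real.log l := Real.log_nonneg (by linarith)
  obtain ⟨k, hk⟩ : ∃ k : ℕ, k = ⌊c * Real.log l⌋₊ := ⟨_, rfl⟩
  obtain ⟨k', hk'⟩ : ∃ k' : ℕ, k' = ⌊c' * Real.log l⌋₊ := ⟨_, rfl⟩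
  obtain ⟨m, hm⟩ : ∃ m : ℕ, m = ⌊Real.log l⌋₊ := ⟨_, rfl⟩
  have hkl : (k : ℝ) ≤ c * Real.log l := by rw [hk]; exact Nat.floor_le (by positivity)
  have hkl' : (k' : ℝ) ≤ c' * Real.log l := by rw [hk']; exact Nat.floor_le (by positivity)
  have hml : (m : ℝ) ≤ Real.log l := by rw [hm]; exact Nat.floor_le hlog
  have hkm : k ≤ m := by
    rw [hk, hm]
    exact Nat.floor_le_floor (by nlinarith)
  have hkm' : k' ≤ m := by
    rw [hk', hm]
    exact Nat.floor_le_floor (by nlinarith)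
  obtain ⟨R, hR⟩ : ∃ R : ℕ, R = ⌊Real.exp (L * l / (64 * ((m : ℝ) + 3)))⌋₊ := ⟨_, rfl⟩
  rw [← hm, ← hR] at hVl hR1
  rw [← hk, ← hk']
  have hRle : (R : ℝ) ≤ Real.exp (L * l / (64 * ((m : ℝ) + 3))) := by
    rw [hR]; exact Nat.floor_le (Real.exp_pos _).le
  have hRgt : Real.exp (L * l / (64 * ((m : ℝ) + 3))) ≤ R + 1 := by
    rw [hR]; exact (Nat.lt_floor_add_one _).le
  have hE : 0 < α ^ l := pow_pos hα0 l
  obtain ⟨J, hJ0, hJR, hmain⟩ := window_bound hθ hA hdio (l := l) hkm hkm' (R := R) (M := M) hR1 hM0 hMl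
    (E := α ^ l) (g := g l) (κ := κ l) (b0 := b0) hE (by linarith) (by linarith) hgr
  have hαe : α ^ l = Real.exp (L * l) := by
    rw [mul_comm, Real.exp_nat_mul, hL, Real.exp_log hα0]
  have hXa : a * Real.exp (L * l) ≤ Real.exp b0 * α ^ l + g l := by
    rw [ha, ← hαe]
    have := neg_abs_le (g l)
    linarith
  have hVV0 : 0 ≤ VV R := Pool.Agent.H305R2.VV_nonneg R
  have h1 := J_num (n := (l : ℝ)) (r := (M : ℝ) / (Nat.totient M : ℝ)) hJ0 hC1 hL0 hl3' hml hRgt hMr hJR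
  have h1a := S_num (n := (l : ℝ)) (V := VV R) hC2 hL0 hc0 hc1 hl3' hkl hRle hR1 hVV0 hVl
  have h1b := S_num (n := (l : ℝ)) (V := VV R) hC2 hL0 hc0' hc1' hl3' hkl' hRle hR1 hVV0 hVl
  have h2 := err_num (n := (l : ℝ)) (Z := Z32) (k := m) hL0 hA Z32_nonneg hl0.le hR1 hRle ha0 hXa
  have h3 := (rankin (l := l) (R := R) (k := k) hc0 hc1).trans h1a
  have h3' := (rankin (l := l) (R := R) (k := k') hc0' hc1').trans h1b
  have h30 : 0 ≤ ∑ a ∈ DD l R k, (1 : ℝ) / a := Finset.sum_nonneg fun _ _ => by positivity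
  have h30' : 0 ≤ ∑ a ∈ DD l R k', (1 : ℝ) / a := Finset.sum_nonneg fun _ _ => by positivity
  have h4 : 16 / J ^ 2 * ((∑ a ∈ DD l R k, (1 : ℝ) / a) * ∑ a ∈ DD l R k', (1 : ℝ) / a) ≤
      16 * (512 * C1 / L) ^ 2 * ((C2 * L) ^ c * (C2 * L) ^ c') * ((Real.log l) ^ 4 * (l : ℝ) ^ (σ - 2)) := by
    calc 16 / J ^ 2 * ((∑ a ∈ DD l R k, (1 : ℝ) / a) * ∑ a ∈ DD l R k', (1 : ℝ) / a) ≤
        (16 * (512 * C1 / L) ^ 2 * ((Real.log l) ^ 4 / (l : ℝ) ^ 2)) *
          (((C2 * L) ^ c * (l : ℝ) ^ (c * (1 - Real.log c))) *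
            ((C2 * L) ^ c' * (l : ℝ) ^ (c' * (1 - Real.log c')))) := by
          refine mul_le_mul h1 (mul_le_mul h3 h3' h30' (by positivity)) (mul_nonneg h30 h30') (by positivity)
      _ = _ := by
          have e1 : (l : ℝ) ^ (σ - 2) = (l : ℝ) ^ (c * (1 - Real.log c)) * (l : ℝ) ^ (c' * (1 - Real.log c')) /
              (l : ℝ) ^ 2 := by
            rw [hσd, Real.rpow_sub hl0, Real.rpow_add hl0]
            norm_num
          rw [e1]
          ring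
  have h5 : ((R : ℝ) ^ m) ^ 2 * ((R : ℝ) ^ 8 * ee A (R ^ (m + 2)) (Real.exp b0 * α ^ l + g l)) ≤
      (Z32 + 2) ^ 2 * Real.sqrt (A / a) * Real.exp (-(L * l / 4)) := h2
  have hK1 : 0 ≤ 16 * (512 * C1 / L) ^ 2 * ((C2 * L) ^ c * (C2 * L) ^ c') := by positivity
  have hK2 : 0 ≤ (Z32 + 2) ^ 2 * Real.sqrt (A / a) := by positivity
  calc _ ≤ _ := hmain
    _ ≤ 16 * (512 * C1 / L) ^ 2 * ((C2 * L) ^ c * (C2 * L) ^ c') * ((Real.log l) ^ 4 * (l : ℝ) ^ (σ - 2)) +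
        4 * ((Z32 + 2) ^ 2 * Real.sqrt (A / a) * Real.exp (-(L * l / 4))) := by
        linarith
    _ ≤ 16 * (512 * C1 / L) ^ 2 * ((C2 * L) ^ c * (C2 * L) ^ c') * (l : ℝ) ^ (-(1 + η)) +
        4 * ((Z32 + 2) ^ 2 * Real.sqrt (A / a) * (l : ℝ) ^ (-(1 + η))) := by
        gcongr
    _ = _ := by ring

end Pool.Agent.K6.H40.PairLaw
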