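import Mathlib
import Pool.Agent.K6.H40.PairD
import Pool.Agent.TH888.R.Sh
import Pool.Agent.W66.XG

set_option autoImplicit false

/-!
# Almost always one of the two integers has many large prime factors
-/

namespace Pool.Agent.K6.H40.PairLaw

open Finset MeasureTheory Filter Topology

/-- **One of two integers has many large prime factors, in logarithmic scale.** -/
theorem ae_window {α θ A c c' : ℝ} (hα : 1 < α) (hθ : 1 ≤ θ) (hA : 1 ≤ A)
    (hdio : ∀ a b : ℕ, 1 ≤ a → 1 ≤ b → 1 ≤ |(a : ℝ) - b * θ| * (A * (a + b)))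
    (hc0 : 0 < c) (hc1 : c ≤ 1) (hc0' : 0 < c') (hc1' : c' ≤ 1)
    (hσ : c * (1 - Real.log c) + c' * (1 - Real.log c') < 1) {g κ : ℕ → ℝ} (b0 : ℝ)
    (hg : ∀ᶠ l : ℕ in atTop, 8 * |g l| ≤ Real.exp b0 * α ^ l)
    (hκ : ∀ᶠ l : ℕ in atTop, 8 * |κ l| ≤ Real.exp b0 * α ^ l) :
    ∀ᵐ t ∂(volume.restrict (Set.Ioc b0 (b0 + 1))), ∀ᶠ l : ℕ in atTop,
      c * Real.log l < om l ⌊Real.exp t * α ^ l + g l⌋₊ ∨
        c' * Real.log l < om l ⌊θ * (Real.exp t * α ^ l + g l) + κ l⌋₊ := by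
  obtain ⟨K, η, hη, hev⟩ := scale_bound hα hθ hA hdio hc0 hc1 hc0' hc1' hσ b0 hg hκ
  set μ := volume.restrict (Set.Ioc b0 (b0 + 1)) with hμ
  set S : ℕ → Set ℝ := fun l => {t | om l ⌊Real.exp t * α ^ l + g l⌋₊ ≤
        ⌊c * Real.log l⌋₊ ∧ om l ⌊θ * (Real.exp t * α ^ l + g l) + κ l⌋₊ ≤ ⌊c' * Real.log l⌋₊} with hS
  have hsum : ∑' l, μ (S l) ≠ ⊤ := by
    obtain ⟨N, hN⟩ := eventually_atTop.1 hev
    have h1 : Summable fun l : ℕ => |K| * (l : ℝ) ^ (-(1 + η)) :=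
      (Real.summable_nat_rpow.2 (by linarith)).mul_left _
    have h2 : Summable fun l : ℕ => μ.real (S l) := by
      rw [← summable_nat_add_iff N]
      refine Summable.of_nonneg_of_le (fun l => measureReal_nonneg) (fun l => ?_)
        ((summable_nat_add_iff N).2 h1)
      refine (hN (l + N) (by omega)).trans ?_
      exact mul_le_mul_of_nonneg_right (le_abs_self K) (by positivity)
    have h3 : ∀ l, μ (S l) = ENNReal.ofReal (μ.real (S l)) := fun l =>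
      (ENNReal.ofReal_toReal (measure_ne_top μ _)).symm
    simp only [h3]
    exact h2.tsum_ofReal_ne_top
  filter_upwards [ae_eventually_notMem hsum] with t ht
  filter_upwards [ht, eventually_ge_atTop 1] with l hl hl1
  by_contra hcon
  rw [not_or, not_lt, not_lt] at hcon
  exact hl ⟨Nat.le_floor hcon.1, Nat.le_floor hcon.2⟩

/-- **One of two integers has many large prime factors.** -/
theorem ae_pair {α θ A c c' C κ' : ℝ} (hα : 1 < α) (hθ : 1 ≤ θ) (hA : 1 ≤ A)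
    (hdio : ∀ a b : ℕ, 1 ≤ a → 1 ≤ b → 1 ≤ |(a : ℝ) - b * θ| * (A * (a + b)))
    (hc0 : 0 < c) (hc1 : c ≤ 1) (hc0' : 0 < c') (hc1' : c' ≤ 1)
    (hσ : c * (1 - Real.log c) + c' * (1 - Real.log c') < 1) {g κ : ℕ → ℝ}
    (hκ0 : 0 ≤ κ') (hκ1 : κ' < α) (hg : ∀ l, |g l| ≤ C * κ' ^ l) (hκ : ∀ l, |κ l| ≤ C * κ' ^ l) :
    ∀ᵐ β : ℝ, 0 < β → ∀ᶠ l : ℕ in atTop,
      c * Real.log l < om l ⌊β * α ^ l + g l⌋₊ ∨
        c' * Real.log l < om l ⌊θ * (β * α ^ l + g l) + κ l⌋₊ := by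
  have hα0 : 0 < α := by linarith
  refine Pool.Agent.W66X.ae_of_exp' (P := fun β : ℝ => ∀ᶠ l : ℕ in atTop,
      c * Real.log l < om l ⌊β * α ^ l + g l⌋₊ ∨
        c' * Real.log l < om l ⌊θ * (β * α ^ l + g l) + κ l⌋₊) (Pool.Agent.TH888.R.ae_windows fun b0 => ?_)
  have e : ∀ l : ℕ, Real.exp (Real.log α * l + b0) = Real.exp b0 * α ^ l := by
    intro l
    rw [add_comm, Real.exp_add, mul_comm (Real.log α), Real.exp_nat_mul, Real.exp_log hα0]
  refine ae_window hα hθ hA hdio hc0 hc1 hc0' hc1' hσ b0 ?_ ?_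
  · filter_upwards [Pool.Agent.W66X.pert8 hα0 hκ0 hκ1 hg b0 8] with l hl
    rw [e] at hl
    push_cast at hl
    exact hl
  · filter_upwards [Pool.Agent.W66X.pert8 hα0 hκ0 hκ1 hκ b0 8] with l hl
    rw [e] at hl
    push_cast at hl
    exact hl

end Pool.Agent.K6.H40.PairLaw
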