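import Mathlib
import Pool.Agent.K6.H40.PairE

set_option autoImplicit false

/-!
# The measure of the exceptional set from some point on
-/

namespace Pool.Agent.K6.H40.PairLaw

open Finset MeasureTheory Filter Topology

/-- translation of windows -/
lemma shift_window (s b : ℝ) (P : ℝ → Prop) :
    (volume.restrict (Set.Ioc b (b + 1))).real {t | P (t - s)} =
      (volume.restrict (Set.Ioc (b - s) (b - s + 1))).real {t | P t} := by
  unfold Measure.real
  rw [Measure.restrict_apply' measurableSet_Ioc, Measure.restrict_apply' measurableSet_Ioc]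
  have e : {t | P (t - s)} ∩ Set.Ioc b (b + 1) =
      (fun t => t - s) ⁻¹' ({t | P t} ∩ Set.Ioc (b - s) (b - s + 1)) := by
    ext t
    simp only [Set.mem_inter_iff, Set.mem_ofPred_eq, Set.mem_Ioc, Set.mem_preimage]
    refine and_congr_right fun _ => ⟨fun h => ⟨by linarith [h.1], by linarith [h.2]⟩,
      fun h => ⟨by linarith [h.1], by linarith [h.2]⟩⟩
  rw [e]
  congr 1
  simp only [sub_eq_add_neg]
  exact measure_preimage_add_right volume (-s) _

/-- a union of small sets -/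
lemma tail_union {μ : Measure ℝ} [IsFiniteMeasure μ] {S : ℕ → Set ℝ} {K η : ℝ} (hη : 0 < η)
    (h : ∀ᶠ l : ℕ in atTop, μ.real (S l) ≤ K * (l : ℝ) ^ (-(1 + η))) :
    ∃ K' η' : ℝ, 0 < η' ∧ ∀ N : ℕ, 1 ≤ N → μ.real {t | ∃ l : ℕ, N ≤ l ∧ t ∈ S l} ≤ K' * (N : ℝ) ^ (-η') := by
  obtain ⟨N₀, hN₀⟩ := eventually_atTop.1 h
  have hs : Summable fun l : ℕ => (l : ℝ) ^ (-(1 + η / 2)) := Real.summable_nat_rpow.2 (by linarith)
  set Z := ∑' l : ℕ, (l : ℝ) ^ (-(1 + η / 2)) with hZ
  have hZ0 : 0 ≤ Z := tsum_nonneg fun l => by positivity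
  refine ⟨|K| * Z + μ.real Set.univ * ((N₀ : ℝ) + 1) ^ (η / 2), η / 2, by positivity, fun N hN => ?_⟩
  have hN0 : (0 : ℝ) < N := by exact_mod_cast hN
  rcases le_or_gt N₀ N with h1 | h1
  · have h2 : μ.real {t | ∃ l : ℕ, N ≤ l ∧ t ∈ S l} ≤ |K| * Z * (N : ℝ) ^ (-(η / 2)) := by
      have hsub : {t | ∃ l : ℕ, N ≤ l ∧ t ∈ S l} ⊆ ⋃ j : ℕ, S (j + N) := by
        rintro t ⟨l, hl, ht⟩
        rw [Set.mem_iUnion]
        refine ⟨l - N, ?_⟩
        rw [Nat.sub_add_cancel hl]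
        exact ht
      have hb : ∀ j : ℕ, μ.real (S (j + N)) ≤ |K| * (N : ℝ) ^ (-(η / 2)) * ((j + N : ℕ) : ℝ) ^ (-(1 + η / 2)) := by
        intro j
        have hj : (0 : ℝ) < ((j + N : ℕ) : ℝ) := by
          have : 0 < j + N := by omega
          exact_mod_cast this
        have hjN : (N : ℝ) ≤ ((j + N : ℕ) : ℝ) := by push_cast; linarith [Nat.cast_nonneg (α := ℝ) j]
        refine (hN₀ (j + N) (by omega)).trans ?_
        have e1 : ((j + N : ℕ) : ℝ) ^ (-(1 + η)) =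
            ((j + N : ℕ) : ℝ) ^ (-(η / 2)) * ((j + N : ℕ) : ℝ) ^ (-(1 + η / 2)) := by
          rw [← Real.rpow_add hj]; ring_nf
        rw [e1, mul_assoc, ← mul_assoc, ← mul_assoc]
        refine mul_le_mul_of_nonneg_right ?_ (by positivity)
        refine mul_le_mul (le_abs_self K) ?_ (by positivity) (abs_nonneg K)
        exact Real.rpow_le_rpow_of_nonpos hN0 hjN (by linarith)
      have hs2 : Summable fun j : ℕ => |K| * (N : ℝ) ^ (-(η / 2)) * ((j + N : ℕ) : ℝ) ^ (-(1 + η / 2)) :=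
        ((summable_nat_add_iff N).2 hs).mul_left _
      have hs3 : Summable fun j : ℕ => μ.real (S (j + N)) :=
        Summable.of_nonneg_of_le (fun j => measureReal_nonneg) hb hs2
      have h3 : μ (⋃ j : ℕ, S (j + N)) ≤ ENNReal.ofReal (∑' j : ℕ, μ.real (S (j + N))) := by
        refine (measure_iUnion_le _).trans ?_
        rw [ENNReal.ofReal_tsum_of_nonneg (fun j => measureReal_nonneg) hs3]
        refine ENNReal.tsum_le_tsum fun j => ?_
        exact (ENNReal.ofReal_toReal (measure_ne_top μ _)).ge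
      have h4 : μ.real {t | ∃ l : ℕ, N ≤ l ∧ t ∈ S l} ≤ ∑' j : ℕ, μ.real (S (j + N)) :=
        ENNReal.toReal_le_of_le_ofReal (tsum_nonneg fun j => measureReal_nonneg)
          ((measure_mono hsub).trans h3)
      refine h4.trans ((Summable.tsum_le_tsum hb hs3 hs2).trans ?_)
      rw [tsum_mul_left]
      have h5 : ∑' j : ℕ, ((j + N : ℕ) : ℝ) ^ (-(1 + η / 2)) ≤ Z := by
        rw [hZ, ← hs.sum_add_tsum_nat_add N]
        have : 0 ≤ ∑ i ∈ Finset.range N, (i : ℝ) ^ (-(1 + η / 2)) :=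
          Finset.sum_nonneg fun i _ => by positivity
        linarith
      calc |K| * (N : ℝ) ^ (-(η / 2)) * ∑' j : ℕ, ((j + N : ℕ) : ℝ) ^ (-(1 + η / 2)) ≤
            |K| * (N : ℝ) ^ (-(η / 2)) * Z := mul_le_mul_of_nonneg_left h5 (by positivity)
        _ = _ := by ring
    refine h2.trans (mul_le_mul_of_nonneg_right ?_ (by positivity))
    have : 0 ≤ μ.real Set.univ * ((N₀ : ℝ) + 1) ^ (η / 2) := mul_nonneg measureReal_nonneg (by positivity)
    linarith
  · have h2 : μ.real {t | ∃ l : ℕ, N ≤ l ∧ t ∈ S l} ≤ μ.real Set.univ := measureReal_mono (Set.subset_univ _)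
    have h3 : 1 ≤ ((N₀ : ℝ) + 1) ^ (η / 2) * (N : ℝ) ^ (-(η / 2)) := by
      rw [Real.rpow_neg hN0.le, ← div_eq_mul_inv, one_le_div (by positivity)]
      refine Real.rpow_le_rpow hN0.le ?_ (by positivity)
      have : (N : ℝ) < N₀ := by exact_mod_cast h1
      linarith
    have h4 : 0 ≤ |K| * Z * (N : ℝ) ^ (-(η / 2)) := by positivity
    have h5 : μ.real Set.univ ≤ μ.real Set.univ * (((N₀ : ℝ) + 1) ^ (η / 2) * (N : ℝ) ^ (-(η / 2))) :=
      le_mul_of_one_le_right measureReal_nonneg h3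
    calc _ ≤ μ.real Set.univ := h2
      _ ≤ μ.real Set.univ * (((N₀ : ℝ) + 1) ^ (η / 2) * (N : ℝ) ^ (-(η / 2))) := h5
      _ ≤ _ := by
        rw [add_mul]
        linarith

end Pool.Agent.K6.H40.PairLaw
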