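import Pool.Agent.R909.RandSets
import Pool.Agent.R479.DA.Lim

/-!
# Thin sets of relations with several members, and random sets

`T` is a set of objects with heights `H t ≥ 1`, each with finitely many members `mem i t`, and `Q` a property such that the
sum of the `H t ^ (-p)` over the objects with the property `Q` converges. If `A` is a random set, two different elements of
which occur together with probability at most `C * (|m| |n|) ^ (-γ)`, then almost surely only finitely many objects with the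
property `Q` have two different members of size at least `H t / K` in `A`, if `p ≤ 2 γ`. The proofs use
`Pool.Agent.R909.RandSets` (helper909).
-/

set_option autoImplicit false

namespace Pool.Agent.K6.H40.Rand

open Filter Topology MeasureTheory
open Pool.Agent.R909.RS (Sparse PairSparse main_subtype)

variable {T M Ω ι : Type} [MeasurableSpace Ω] {P : Measure Ω} {H : T → ℝ} {nm : M → ℝ} {A : Ω → Set M} {γ C : ℝ}

lemma single_bound (hA : Sparse P nm A γ C) (hγ : 0 ≤ γ) {K h : ℝ} (hK : 0 < K) (h1 : 1 ≤ h) {u : M}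
    (hu : h ≤ K * nm u) : P {ω | u ∈ A ω} ≤ ENNReal.ofReal (|C| * K ^ γ * h ^ (-γ)) := by
  have h4 : 0 < nm u := by
    by_contra h5
    push Not at h5
    nlinarith
  refine (hA _ h4).trans (ENNReal.ofReal_le_ofReal ?_)
  have h5 : nm u ^ (-γ) ≤ (h / K) ^ (-γ) := by
    refine Real.rpow_le_rpow_of_nonpos (div_pos (by linarith) hK) ?_ (by linarith)
    rw [div_le_iff₀ hK]
    linarith
  have h6 : (h / K) ^ (-γ) = K ^ γ * h ^ (-γ) := by
    rw [Real.div_rpow (by linarith) hK.le, Real.rpow_neg hK.le, div_inv_eq_mul, mul_comm]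
  calc C * nm u ^ (-γ) ≤ |C| * nm u ^ (-γ) :=
        mul_le_mul_of_nonneg_right (le_abs_self C) (Real.rpow_nonneg h4.le _)
    _ ≤ |C| * (K ^ γ * h ^ (-γ)) := by
        rw [← h6]
        exact mul_le_mul_of_nonneg_left h5 (abs_nonneg C)
    _ = _ := by ring

lemma pair_bound (hA : PairSparse P nm A γ C) (hγ : 0 ≤ γ) {K h : ℝ} (hK : 0 < K) (h1 : 1 ≤ h) {u v : M} (huv : u ≠ v)
    (hu : h ≤ K * nm u) (hv : h ≤ K * nm v) :
    P {ω | u ∈ A ω ∧ v ∈ A ω} ≤ ENNReal.ofReal (|C| * K ^ (2 * γ) * h ^ (-(2 * γ))) := by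
  have h4 : 0 < nm u := by
    by_contra h5
    push Not at h5
    nlinarith
  have h4' : 0 < nm v := by
    by_contra h5
    push Not at h5
    nlinarith
  refine (hA _ _ h4 h4' huv).trans (ENNReal.ofReal_le_ofReal ?_)
  have h7 : 0 < h / K := div_pos (by linarith) hK
  have h5 : (nm u * nm v) ^ (-γ) ≤ ((h / K) * (h / K)) ^ (-γ) := by
    refine Real.rpow_le_rpow_of_nonpos (mul_pos h7 h7) ?_ (by linarith)
    refine mul_le_mul ?_ ?_ h7.le h4.le
    · rw [div_le_iff₀ hK]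
      linarith
    · rw [div_le_iff₀ hK]
      linarith
  have h6 : ((h / K) * (h / K)) ^ (-γ) = K ^ (2 * γ) * h ^ (-(2 * γ)) := by
    have h8 : (h / K) * (h / K) = (h / K) ^ (2 : ℝ) := by
      rw [Real.rpow_two, pow_two]
    rw [h8, ← Real.rpow_mul h7.le, show (2 : ℝ) * -γ = -(2 * γ) by ring,
      Real.div_rpow (by linarith) hK.le, Real.rpow_neg hK.le, div_inv_eq_mul, mul_comm]
  calc C * (nm u * nm v) ^ (-γ) ≤ |C| * (nm u * nm v) ^ (-γ) :=
        mul_le_mul_of_nonneg_right (le_abs_self C) (Real.rpow_nonneg (by positivity) _)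
    _ ≤ |C| * (K ^ (2 * γ) * h ^ (-(2 * γ))) := by
        rw [← h6]
        exact mul_le_mul_of_nonneg_left h5 (abs_nonneg C)
    _ = _ := by ring

/-- finite unions of events of small probability -/
lemma union_bound {κ : Type} [Fintype κ] {E : κ → Set Ω} {b : ℝ} (hb : 0 ≤ b) (h : ∀ k, P (E k) ≤ ENNReal.ofReal b) :
    P {ω | ∃ k, ω ∈ E k} ≤ ENNReal.ofReal (Fintype.card κ * b) := by
  have h1 : {ω | ∃ k, ω ∈ E k} = ⋃ k, E k := by
    ext ω
    simp
  rw [h1]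
  refine (measure_iUnion_fintype_le P E).trans ?_
  calc ∑ k, P (E k) ≤ ∑ _k : κ, ENNReal.ofReal b := Finset.sum_le_sum fun k _ => h k
    _ = ENNReal.ofReal (Fintype.card κ * b) := by
        rw [Finset.sum_const, Finset.card_univ, nsmul_eq_mul, ENNReal.ofReal_mul (Nat.cast_nonneg _),
          ENNReal.ofReal_natCast]

/-- **One large member in a random set.** -/
theorem one [Fintype ι] (mem : ι → T → M) (hA : Sparse P nm A γ C) {Q : T → Prop} (h1 : ∀ t, Q t → 1 ≤ H t) {K : ℝ}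
    (hK : 0 < K) (hγ : 0 ≤ γ) {p η : ℝ} (hη : 0 ≤ η) (hp : p + η ≤ γ)
    (hH : Summable fun t : {t // Q t} => H t.1 ^ (-p)) :
    (∀ᵐ ω ∂P, {t | Q t ∧ ∃ i, H t ≤ K * nm (mem i t) ∧ mem i t ∈ A ω}.Finite) ∧ ∃ B : ℝ, ∀ y : ℝ, 1 ≤ y →
      P {ω | ∃ t, Q t ∧ y ≤ H t ∧ ∃ i, H t ≤ K * nm (mem i t) ∧ mem i t ∈ A ω} ≤ ENNReal.ofReal (B * y ^ (-η)) := by
  refine main_subtype (E := fun t => {ω | ∃ i, H t ≤ K * nm (mem i t) ∧ mem i t ∈ A ω})
    (C := Fintype.card ι * (|C| * K ^ γ)) (q := γ) h1 (fun t ht => ?_) hη hp hH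
  have h2 := h1 t ht
  have hb : 0 ≤ |C| * K ^ γ * H t ^ (-γ) := by
    have := Real.rpow_nonneg (by linarith : (0 : ℝ) ≤ H t) (-γ)
    positivity
  have h3 := union_bound (P := P) (E := fun i : ι => {ω | H t ≤ K * nm (mem i t) ∧ mem i t ∈ A ω}) hb (fun i => by
    by_cases h4 : H t ≤ K * nm (mem i t)
    · refine (measure_mono ?_).trans (single_bound hA hγ hK h2 h4)
      rintro ω ⟨_, h5⟩
      exact h5
    · have e : {ω | H t ≤ K * nm (mem i t) ∧ mem i t ∈ A ω} = ∅ := by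
        ext ω
        simp [h4]
      rw [e, measure_empty]
      exact bot_le)
  refine h3.trans (le_of_eq ?_)
  ring_nf

/-- **Two large members in a random set.** -/
theorem two [Fintype ι] (mem : ι → T → M) (hA : PairSparse P nm A γ C) {Q : T → Prop} (h1 : ∀ t, Q t → 1 ≤ H t)
    {K : ℝ} (hK : 0 < K) (hγ : 0 ≤ γ) {p η : ℝ} (hη : 0 ≤ η) (hp : p + η ≤ 2 * γ)
    (hH : Summable fun t : {t // Q t} => H t.1 ^ (-p)) :
    (∀ᵐ ω ∂P, {t | Q t ∧ ∃ i j, mem i t ≠ mem j t ∧ H t ≤ K * nm (mem i t) ∧ H t ≤ K * nm (mem j t) ∧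
      mem i t ∈ A ω ∧ mem j t ∈ A ω}.Finite) ∧ ∃ B : ℝ, ∀ y : ℝ, 1 ≤ y →
      P {ω | ∃ t, Q t ∧ y ≤ H t ∧ ∃ i j, mem i t ≠ mem j t ∧ H t ≤ K * nm (mem i t) ∧ H t ≤ K * nm (mem j t) ∧
        mem i t ∈ A ω ∧ mem j t ∈ A ω} ≤ ENNReal.ofReal (B * y ^ (-η)) := by
  refine main_subtype (E := fun t => {ω | ∃ i j, mem i t ≠ mem j t ∧ H t ≤ K * nm (mem i t) ∧
      H t ≤ K * nm (mem j t) ∧ mem i t ∈ A ω ∧ mem j t ∈ A ω})
    (C := Fintype.card (ι × ι) * (|C| * K ^ (2 * γ))) (q := 2 * γ) h1 (fun t ht => ?_) hη hp hH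
  have h2 := h1 t ht
  have hb : 0 ≤ |C| * K ^ (2 * γ) * H t ^ (-(2 * γ)) := by
    have := Real.rpow_nonneg (by linarith : (0 : ℝ) ≤ H t) (-(2 * γ))
    positivity
  have h3 := union_bound (P := P) (E := fun q : ι × ι => {ω | mem q.1 t ≠ mem q.2 t ∧ H t ≤ K * nm (mem q.1 t) ∧
      H t ≤ K * nm (mem q.2 t) ∧ mem q.1 t ∈ A ω ∧ mem q.2 t ∈ A ω}) hb (fun q => by
    by_cases h4 : mem q.1 t ≠ mem q.2 t ∧ H t ≤ K * nm (mem q.1 t) ∧ H t ≤ K * nm (mem q.2 t)
    · refine (measure_mono ?_).trans (pair_bound hA hγ hK h2 h4.1 h4.2.1 h4.2.2)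
      rintro ω ⟨_, _, _, h5, h6⟩
      exact ⟨h5, h6⟩
    · have e : {ω | mem q.1 t ≠ mem q.2 t ∧ H t ≤ K * nm (mem q.1 t) ∧
          H t ≤ K * nm (mem q.2 t) ∧ mem q.1 t ∈ A ω ∧ mem q.2 t ∈ A ω} = ∅ := by
        ext ω
        simp only [Set.mem_ofPred_eq, Set.mem_empty_iff_false, iff_false]
        rintro ⟨a, b, c, _⟩
        exact h4 ⟨a, b, c⟩
      rw [e, measure_empty]
      exact bot_le)
  refine (measure_mono ?_).trans (h3.trans (le_of_eq ?_))
  · rintro ω ⟨i, j, h4⟩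
    exact ⟨(i, j), h4⟩
  · ring_nf

end Pool.Agent.K6.H40.Rand
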