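import Pool.Agent.N671.DA.Win
import Pool.Agent.R909.RandSets
import Pool.Agent.R479.DA.Lim

/-!
# Thin sets near the elements of random sets

Let `S` be a set of objects with heights `h t` with `O (X ^ (s + ε))` elements of height at most `X`, and let `G` have steps
bounded below by a positive constant and growth at most `v ^ d`. If `A` is a random set of positive integers with
`P (m ∈ A) ≤ D m ^ (-γ)`, `γ > d s + κ`, then almost surely there are only finitely many `m ∈ A` with an object of height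
within `m ^ κ` of `G m`. The tools are those of helper671 (`N671/DA`), helper909 (`R909`) and helper479 (`R479/DA`).
-/

set_option autoImplicit false

namespace Pool.Agent.K6.H40.RandNear

open Finset MeasureTheory
open Pool.Agent.N671.DA (Expanding NearG nearG_count)

variable {Ω : Type} [MeasurableSpace Ω] {P : Measure Ω}

/-- each `m` belongs to the random set `A` with probability at most `D * m ^ (-γ)` -/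
def Sparse (P : Measure Ω) (A : Ω → Set ℕ) (γ D : ℝ) : Prop :=
  ∀ m : ℕ, 0 < m → P {ω | m ∈ A ω} ≤ ENNReal.ofReal (D * (m : ℝ) ^ (-γ))

/-- A set of positive integers with few elements, and a random set. -/
theorem thin (V : Set ℕ) {s : ℝ} (hs : 0 ≤ s)
    (hV : ∀ ε : ℝ, 0 < ε → ∃ C : ℝ, ∀ X : ℕ, 1 ≤ X → ({v : ℕ | 1 ≤ v ∧ v ≤ X ∧ v ∈ V}.ncard : ℝ) ≤ C * (X : ℝ) ^ (s + ε))
    {A : Ω → Set ℕ} {γ D : ℝ} (hA : Sparse P A γ D) :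
    (s < γ → ∀ᵐ ω ∂P, {m : ℕ | 1 ≤ m ∧ m ∈ V ∧ m ∈ A ω}.Finite) ∧
    ∀ η : ℝ, 0 ≤ η → s + η < γ → ∃ B : ℝ, ∀ y : ℝ, 1 ≤ y →
      P {ω | ∃ m : ℕ, (1 ≤ m ∧ m ∈ V) ∧ y ≤ (m : ℝ) ∧ m ∈ A ω} ≤ ENNReal.ofReal (B * y ^ (-η)) := by
  have key : ∀ η : ℝ, 0 ≤ η → s + η < γ →
      (∀ᵐ ω ∂P, {m : ℕ | (1 ≤ m ∧ m ∈ V) ∧ m ∈ A ω}.Finite) ∧ ∃ B : ℝ, ∀ y : ℝ, 1 ≤ y →
      P {ω | ∃ m : ℕ, (1 ≤ m ∧ m ∈ V) ∧ y ≤ (m : ℝ) ∧ m ∈ A ω} ≤ ENNReal.ofReal (B * y ^ (-η)) := by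
    intro η hη h
    have hA' : Pool.Agent.R909.RS.Sparse P (fun m : ℕ => (m : ℝ)) A γ D := by
      intro m hm
      exact hA m (Nat.cast_pos.1 hm)
    obtain ⟨r, hr1, hr2⟩ := exists_between (show s < γ - η by linarith)
    have hsum : Summable fun m : {m : ℕ // 1 ≤ m ∧ m ∈ V} => ((m.1 : ℕ) : ℝ) ^ (-(γ - η)) := by
      obtain ⟨C, hC⟩ := hV (r - s) (by linarith)
      refine Pool.Agent.R479.DA.summable_heights (fun m : {m : ℕ // 1 ≤ m ∧ m ∈ V} => ((m.1 : ℕ) : ℝ))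
        (fun m => by exact_mod_cast m.2.1) (s := r) (p := γ - η) (C := |C|) hr2 (by linarith) ?_
      intro X hX
      have hX1 : 1 ≤ ⌊X⌋₊ := Nat.le_floor (by exact_mod_cast hX)
      have hfin : {v : ℕ | 1 ≤ v ∧ v ≤ ⌊X⌋₊ ∧ v ∈ V}.Finite := (Set.finite_Iic ⌊X⌋₊).subset (fun v hv => hv.2.1)
      have hmaps : Set.MapsTo (Subtype.val : {m : ℕ // 1 ≤ m ∧ m ∈ V} → ℕ) {m | ((m.1 : ℕ) : ℝ) ≤ X}
          {v : ℕ | 1 ≤ v ∧ v ≤ ⌊X⌋₊ ∧ v ∈ V} := by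
        rintro ⟨m, h1, h2⟩ h3
        exact ⟨h1, Nat.le_floor h3, h2⟩
      have hinj : Set.InjOn (Subtype.val : {m : ℕ // 1 ≤ m ∧ m ∈ V} → ℕ) {m | ((m.1 : ℕ) : ℝ) ≤ X} :=
        Subtype.val_injective.injOn
      refine ⟨hfin.of_injOn hmaps hinj, ?_⟩
      have h3 := Set.ncard_le_ncard_of_injOn _ hmaps hinj hfin
      have e : s + (r - s) = r := by ring
      have h4 := hC ⌊X⌋₊ hX1
      rw [e] at h4
      calc (({m : {m : ℕ // 1 ≤ m ∧ m ∈ V} | ((m.1 : ℕ) : ℝ) ≤ X}.ncard : ℕ) : ℝ)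
          ≤ ({v : ℕ | 1 ≤ v ∧ v ≤ ⌊X⌋₊ ∧ v ∈ V}.ncard : ℝ) := by exact_mod_cast h3
        _ ≤ C * ((⌊X⌋₊ : ℕ) : ℝ) ^ r := h4
        _ ≤ |C| * ((⌊X⌋₊ : ℕ) : ℝ) ^ r := mul_le_mul_of_nonneg_right (le_abs_self C) (by positivity)
        _ ≤ |C| * X ^ r := mul_le_mul_of_nonneg_left
            (Real.rpow_le_rpow (Nat.cast_nonneg _) (Nat.floor_le (by linarith)) (by linarith)) (abs_nonneg C)
    exact Pool.Agent.R909.RS.single (T := ℕ) (H := fun m => (m : ℝ)) hA' (Q := fun m => 1 ≤ m ∧ m ∈ V)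
      (fun m hm => by exact_mod_cast hm.1) (u := fun m => m) (K := 1) one_pos (fun m _ => by simp) (by linarith)
      (p := γ - η) hη (by linarith) hsum
  refine ⟨fun h => ?_, fun η hη h => (key η hη h).2⟩
  filter_upwards [(key 0 le_rfl (by linarith)).1] with ω hω
  refine hω.subset ?_
  rintro m ⟨h1, h2, h3⟩
  exact ⟨⟨h1, h2⟩, h3⟩

/-- **Thin sets near the elements of random sets.** -/
theorem rand_good {T : Type*} (Adm Good : T → Prop) (h : T → ℝ) {G : ℕ → ℝ} {d : ℝ} (hG : Expanding G d) {s κ : ℝ}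
    (hs : 0 ≤ s) (hκ : 0 ≤ κ) (hκ1 : κ ≤ 1)
    (hS : ∀ ε : ℝ, 0 < ε → ∃ C : ℝ, ∀ X : ℝ, 1 ≤ X →
      {t | (Adm t ∧ ¬ Good t) ∧ h t ≤ X}.Finite ∧ ({t | (Adm t ∧ ¬ Good t) ∧ h t ≤ X}.ncard : ℝ) ≤ C * X ^ (s + ε))
    {A : Ω → Set ℕ} {γ D : ℝ} (hA : Sparse P A γ D) :
    (d * s + κ < γ → ∀ᵐ ω ∂P, ∃ N : ℕ, ∀ m ∈ A ω, N ≤ m → ∀ t, Adm t → |h t - G m| ≤ (m : ℝ) ^ κ → Good t) ∧
    ∀ η : ℝ, 0 ≤ η → d * s + κ + η < γ → ∃ B : ℝ, ∀ y : ℝ, 1 ≤ y →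
      P {ω | ∃ m ∈ A ω, y ≤ (m : ℝ) ∧ ∃ t, Adm t ∧ ¬ Good t ∧ |h t - G m| ≤ (m : ℝ) ^ κ} ≤
        ENNReal.ofReal (B * y ^ (-η)) := by
  classical
  have hd := hG.one_le
  have hV : ∀ ε : ℝ, 0 < ε → ∃ C : ℝ, ∀ X : ℕ, 1 ≤ X →
      ({v : ℕ | 1 ≤ v ∧ v ≤ X ∧ v ∈ NearG {t | Adm t ∧ ¬ Good t} h G κ}.ncard : ℝ) ≤
        C * (X : ℝ) ^ ((d * s + κ) + ε) := by
    intro ε hε
    obtain ⟨K, hK⟩ := nearG_count {t | Adm t ∧ ¬ Good t} h hG (s := s + ε / d) (κ := κ) (by positivity) hκ hκ1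
      (hS (ε / d) (by positivity))
    refine ⟨K, fun X hX => ?_⟩
    have h1 := hK X hX
    have e : {v : ℕ | 1 ≤ v ∧ v ≤ X ∧ v ∈ NearG {t | Adm t ∧ ¬ Good t} h G κ} =
        (((Icc 1 X).filter (fun v => v ∈ NearG {t | Adm t ∧ ¬ Good t} h G κ) : Finset ℕ) : Set ℕ) := by
      ext v
      rw [Finset.mem_coe, Finset.mem_filter, Finset.mem_Icc]
      show (1 ≤ v ∧ v ≤ X ∧ v ∈ NearG {t | Adm t ∧ ¬ Good t} h G κ) ↔ _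
      tauto
    rw [e, Set.ncard_coe_finset]
    have e2 : d * (s + ε / d) + κ = (d * s + κ) + ε := by
      have : d ≠ 0 := by linarith
      field_simp
      ring
    rw [e2] at h1
    convert h1 using 3
  have hs' : 0 ≤ d * s + κ := by positivity
  obtain ⟨h1, h2⟩ := thin (NearG {t | Adm t ∧ ¬ Good t} h G κ) hs' hV hA
  refine ⟨fun hγ => ?_, fun η hη hγ => ?_⟩
  · filter_upwards [h1 hγ] with ω hω
    obtain ⟨N, hN⟩ := hω.bddAbove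
    refine ⟨N + 1, fun m hm hNm t ht hw => ?_⟩
    by_contra hcon
    have h3 : m ∈ {m : ℕ | 1 ≤ m ∧ m ∈ NearG {t | Adm t ∧ ¬ Good t} h G κ ∧ m ∈ A ω} :=
      ⟨by omega, ⟨t, ⟨ht, hcon⟩, hw⟩, hm⟩
    have := hN h3
    omega
  · obtain ⟨B, hB⟩ := h2 η hη hγ
    refine ⟨B, fun y hy => (measure_mono ?_).trans (hB y hy)⟩
    rintro ω ⟨m, hm, hym, t, ht, hcon, hw⟩
    refine ⟨m, ⟨?_, ⟨t, ⟨ht, hcon⟩, hw⟩⟩, hym, hm⟩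
    have : (1 : ℝ) ≤ m := hy.trans hym
    exact_mod_cast this

/-- the same for natural numbers -/
theorem rand_good_nat (Adm Good : ℕ → Prop) {G : ℕ → ℝ} {d : ℝ} (hG : Expanding G d) {s κ : ℝ}
    (hs : 0 ≤ s) (hκ : 0 ≤ κ) (hκ1 : κ ≤ 1)
    (hP : ∀ ε : ℝ, 0 < ε → ∃ C : ℝ, ∀ X : ℕ, 1 ≤ X →
      ({t : ℕ | 1 ≤ t ∧ t ≤ X ∧ Adm t ∧ ¬ Good t}.ncard : ℝ) ≤ C * (X : ℝ) ^ (s + ε))
    {A : Ω → Set ℕ} {γ D : ℝ} (hA : Sparse P A γ D) :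
    (d * s + κ < γ → ∀ᵐ ω ∂P, ∃ N : ℕ, ∀ m ∈ A ω, N ≤ m → ∀ n : ℕ, 1 ≤ n → Adm n → |(n : ℝ) - G m| ≤ (m : ℝ) ^ κ →
      Good n) ∧
    ∀ η : ℝ, 0 ≤ η → d * s + κ + η < γ → ∃ B : ℝ, ∀ y : ℝ, 1 ≤ y →
      P {ω | ∃ m ∈ A ω, y ≤ (m : ℝ) ∧ ∃ n : ℕ, 1 ≤ n ∧ Adm n ∧ ¬ Good n ∧ |(n : ℝ) - G m| ≤ (m : ℝ) ^ κ} ≤
        ENNReal.ofReal (B * y ^ (-η)) := by
  obtain ⟨h1, h2⟩ := rand_good (P := P) (fun n : ℕ => 1 ≤ n ∧ Adm n) Good (fun n : ℕ => (n : ℝ)) hG hs hκ hκ1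
    (fun ε hε => by
      obtain ⟨C, hC⟩ := hP ε hε
      refine ⟨|C|, fun X hX => ?_⟩
      have hX1 : 1 ≤ ⌊X⌋₊ := Nat.le_floor (by exact_mod_cast hX)
      have e : {t : ℕ | ((1 ≤ t ∧ Adm t) ∧ ¬ Good t) ∧ (t : ℝ) ≤ X} = {t : ℕ | 1 ≤ t ∧ t ≤ ⌊X⌋₊ ∧ Adm t ∧ ¬ Good t} := by
        ext t
        simp only [Set.mem_ofPred_eq]
        rw [← Nat.le_floor_iff (by linarith)]
        tauto
      rw [e]
      refine ⟨(Set.finite_Iic ⌊X⌋₊).subset (fun t ht => ht.2.1), (hC _ hX1).trans ?_⟩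
      calc C * ((⌊X⌋₊ : ℕ) : ℝ) ^ (s + ε) ≤ |C| * ((⌊X⌋₊ : ℕ) : ℝ) ^ (s + ε) :=
            mul_le_mul_of_nonneg_right (le_abs_self C) (by positivity)
        _ ≤ |C| * X ^ (s + ε) := mul_le_mul_of_nonneg_left
            (Real.rpow_le_rpow (Nat.cast_nonneg _) (Nat.floor_le (by linarith)) (by linarith)) (abs_nonneg C)) hA
  refine ⟨fun hγ => ?_, fun η hη hγ => ?_⟩
  · filter_upwards [h1 hγ] with ω hω
    obtain ⟨N, hN⟩ := hω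
    exact ⟨N, fun m hm hNm n hn hadm hw => hN m hm hNm n ⟨hn, hadm⟩ hw⟩
  · obtain ⟨B, hB⟩ := h2 η hη hγ
    refine ⟨B, fun y hy => (measure_mono ?_).trans (hB y hy)⟩
    rintro ω ⟨m, hm, hym, n, hn, hadm, hg, hw⟩
    exact ⟨m, hm, hym, n, ⟨hn, hadm⟩, hg, hw⟩

/-- the same, for a set `S` -/
theorem rand_windows {T : Type*} (S : Set T) (h : T → ℝ) {G : ℕ → ℝ} {d : ℝ} (hG : Expanding G d) {s κ : ℝ}
    (hs : 0 ≤ s) (hκ : 0 ≤ κ) (hκ1 : κ ≤ 1)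
    (hS : ∀ ε : ℝ, 0 < ε → ∃ C : ℝ, ∀ X : ℝ, 1 ≤ X →
      {t | t ∈ S ∧ h t ≤ X}.Finite ∧ ({t | t ∈ S ∧ h t ≤ X}.ncard : ℝ) ≤ C * X ^ (s + ε))
    {A : Ω → Set ℕ} {γ D : ℝ} (hA : Sparse P A γ D) :
    (d * s + κ < γ → ∀ᵐ ω ∂P, ∃ N : ℕ, ∀ m ∈ A ω, N ≤ m → ∀ t ∈ S, ¬ |h t - G m| ≤ (m : ℝ) ^ κ) ∧
    ∀ η : ℝ, 0 ≤ η → d * s + κ + η < γ → ∃ B : ℝ, ∀ y : ℝ, 1 ≤ y →
      P {ω | ∃ m ∈ A ω, y ≤ (m : ℝ) ∧ ∃ t ∈ S, |h t - G m| ≤ (m : ℝ) ^ κ} ≤ ENNReal.ofReal (B * y ^ (-η)) := by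
  obtain ⟨h1, h2⟩ := rand_good (P := P) (fun t => t ∈ S) (fun _ => False) h hG hs hκ hκ1 (by
    intro ε hε
    obtain ⟨C, hC⟩ := hS ε hε
    refine ⟨C, fun X hX => ?_⟩
    have e : {t | (t ∈ S ∧ ¬ False) ∧ h t ≤ X} = {t | t ∈ S ∧ h t ≤ X} := by
      ext t
      simp only [Set.mem_ofPred_eq, not_false_eq_true, and_true]
    rw [e]
    exact hC X hX) hA
  refine ⟨fun hγ => ?_, fun η hη hγ => ?_⟩
  · filter_upwards [h1 hγ] with ω hω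
    obtain ⟨N, hN⟩ := hω
    exact ⟨N, fun m hm hNm t ht hw => hN m hm hNm t ht hw⟩
  · obtain ⟨B, hB⟩ := h2 η hη hγ
    refine ⟨B, fun y hy => (measure_mono ?_).trans (hB y hy)⟩
    rintro ω ⟨m, hm, hym, t, ht, hw⟩
    exact ⟨m, hm, hym, t, ht, not_false, hw⟩

end Pool.Agent.K6.H40.RandNear
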