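import Pool.Agent.Results.MP_b58c63_nt.EveryNumberInWindows

/-!
# Goldbach with a prime in `(√N, 4 √N)` and a rough second summand: the exceptional even numbers
-/

set_option autoImplicit false

namespace Pool.Agent.K6.H40.ShortGoldbach

open Finset
open Pool.Agent.Results.MP_b58c63_nt.EveryNumberInWindows (sing shortCount Exc count)

/-- There are at least `δ 𝔖(n) √n / (log n) ^ 2` primes `p` with `√n < p < 4 √n` such that all prime factors of `n - p` are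
larger than `n ^ u`. -/
def Good (u δ : ℝ) (n : ℕ) : Prop := δ * sing n * (Real.sqrt n / Real.log n ^ 2) ≤ (shortCount u n : ℝ)

theorem count_nat (u s : ℝ) (hu : 0 < u) (hu1 : u < 3 / 8) (hs : max (1 / 2) (4 * u - 1 / 2) < s) :
    ∃ δ : ℝ, 0 < δ ∧ ∀ ε : ℝ, 0 < ε → ∃ C : ℝ, ∀ X : ℕ, 1 ≤ X →
      ({n : ℕ | 1 ≤ n ∧ n ≤ X ∧ Even n ∧ ¬ Good u δ n}.ncard : ℝ) ≤ C * (X : ℝ) ^ (s + ε) := by
  classical
  obtain ⟨δ, hδ, h⟩ := count u s hu hu1 hs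
  refine ⟨δ, hδ, fun ε hε => ?_⟩
  obtain ⟨C, hC⟩ := h ε hε
  refine ⟨C, fun X hX => ?_⟩
  have e : {n : ℕ | 1 ≤ n ∧ n ≤ X ∧ Even n ∧ ¬ Good u δ n} =
      (((Ioc 0 X).filter (fun m => m ∈ Exc u δ) : Finset ℕ) : Set ℕ) := by
    ext t
    rw [Finset.mem_coe, Finset.mem_filter, Finset.mem_Ioc]
    show (1 ≤ t ∧ t ≤ X ∧ Even t ∧ ¬ (δ * sing t * (Real.sqrt t / Real.log t ^ 2) ≤ (shortCount u t : ℝ))) ↔
      ((0 < t ∧ t ≤ X) ∧ (Even t ∧ (shortCount u t : ℝ) < δ * sing t * (Real.sqrt t / Real.log t ^ 2)))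
    rw [not_le]
    constructor
    · rintro ⟨a1, a2, a3, a4⟩
      exact ⟨⟨a1, a2⟩, a3, a4⟩
    · rintro ⟨⟨a1, a2⟩, a3, a4⟩
      exact ⟨a1, a2, a3, a4⟩
  rw [e, Set.ncard_coe_finset]
  convert hC X hX using 3

end Pool.Agent.K6.H40.ShortGoldbach
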