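import Pool.Agent.K6.H40.TropFew

/-!
# The exceptional integers of all one-parameter families of subvarieties of tori over the algebraic numbers

There are only countably many exceptional sets of families with algebraic coefficients and cosets by units over finite sets
of algebraic numbers.
-/

set_option autoImplicit false

namespace Pool.Agent.K6.H40.TropFew

open Pool.Agent.Results.MP_b7926e_nt.FewExceptionalParameters (member order Trop NoAtypical)

/-- the coefficients of the family are algebraic numbers -/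
def Algebraic {n m : ℕ} (A : Fin m → Finset (Fin n → ℤ)) (c : Fin m → (Fin n → ℤ) → Polynomial ℂ) : Prop :=
  ∀ j, ∀ β ∈ A j, ∀ i, IsAlgebraic ℚ ((c j β).coeff i)

/-- the exceptional sets of the families over the algebraic numbers -/
def ExcAll : Set (Set ℤ) :=
  {E | ∃ (n m r : ℕ) (A : Fin m → Finset (Fin n → ℤ)) (c : Fin m → (Fin n → ℤ) → Polynomial ℂ) (Γ : Set ℂ),
    Generic r A c ∧ Algebraic A c ∧ Γ.Finite ∧ (∀ z ∈ Γ, IsAlgebraic ℚ z) ∧ E = Exc r Γ A c}

/-- the field of the algebraic numbers -/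
noncomputable abbrev K₀ : IntermediateField ℚ ℂ := algebraicClosure ℚ ℂ

instance : Countable K₀ := by
  have h : ({x : ℂ | IsAlgebraic ℚ x} : Set ℂ).Countable := Algebraic.countable ℚ ℂ
  have h2 : ((K₀ : IntermediateField ℚ ℂ) : Set ℂ) ⊆ {x : ℂ | IsAlgebraic ℚ x} := fun x hx =>
    mem_algebraicClosure_iff.1 hx
  exact (h.mono h2).to_subtype

instance : Countable (Polynomial K₀) := by
  rw [← Cardinal.mk_le_aleph0_iff]
  refine Polynomial.cardinalMk_le_max.trans (max_le ?_ le_rfl)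
  exact Cardinal.mk_le_aleph0

lemma exc_congr {n m r : ℕ} {Γ : Set ℂ} {A : Fin m → Finset (Fin n → ℤ)}
    {c c' : Fin m → (Fin n → ℤ) → Polynomial ℂ} (h : ∀ j, ∀ β ∈ A j, c j β = c' j β) : Exc r Γ A c = Exc r Γ A c' := by
  unfold Exc
  have e : ∀ t : ℂ, member A c t = member A c' t := by
    intro t
    unfold member
    ext x
    simp only [Set.mem_ofPred_eq]
    refine and_congr_right fun _ => forall_congr' fun j => ?_
    rw [Finset.sum_congr rfl (fun β hβ => by rw [h j β hβ])]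
  ext t
  simp only [Set.mem_ofPred_eq, e]

open Classical in
theorem countable_excAll : ExcAll.Countable := by
  let P : Type := Σ (n m : ℕ), ℕ × (Fin m → Finset (Fin n → ℤ)) × (Fin m → ((Fin n → ℤ) →₀ Polynomial K₀)) × Finset K₀
  have hP : Countable P := inferInstance
  let F : P → Set ℤ := fun p => Exc p.2.2.1 ((fun z : K₀ => (z : ℂ)) '' (p.2.2.2.2.2 : Set K₀)) p.2.2.2.1
    (fun j β => (p.2.2.2.2.1 j β).map (algebraMap K₀ ℂ))
  refine (Set.countable_range F).mono ?_
  rintro E ⟨n, m, r, A, c, Γ, -, hc, hΓ, hΓa, rfl⟩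
  have hlift : ∀ j, ∀ β ∈ A j, ∃ p : Polynomial K₀, p.map (algebraMap K₀ ℂ) = c j β := by
    intro j β hβ
    have h1 : c j β ∈ Polynomial.lifts (algebraMap K₀ ℂ) := by
      rw [Polynomial.lifts_iff_coeff_lifts]
      intro i
      exact ⟨⟨(c j β).coeff i, mem_algebraicClosure_iff.2 (hc j β hβ i)⟩, rfl⟩
    exact (Polynomial.mem_lifts _).1 h1
  choose p hp using hlift
  refine ⟨⟨n, m, r, A, fun j => Finsupp.onFinset (A j) (fun β => if hβ : β ∈ A j then p j β hβ else 0) ?_,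
    hΓ.toFinset.attach.image (fun z => ⟨z.1, mem_algebraicClosure_iff.2 (hΓa z.1 (hΓ.mem_toFinset.1 z.2))⟩)⟩, ?_⟩
  · intro β hβ
    by_contra h
    exact hβ (dif_neg h)
  · show Exc r _ A _ = Exc r Γ A c
    have e1 : (fun z : K₀ => (z : ℂ)) '' ((hΓ.toFinset.attach.image (fun z => (⟨z.1,
        mem_algebraicClosure_iff.2 (hΓa z.1 (hΓ.mem_toFinset.1 z.2))⟩ : K₀)) : Finset K₀) : Set K₀) = Γ := by
      ext z
      simp only [Finset.coe_image, Finset.coe_attach, Set.image_univ, Set.mem_image, Set.mem_range, Subtype.exists]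
      constructor
      · rintro ⟨a, ha, ⟨b, hb, h1⟩, h2⟩
        have h3 : b = a := congrArg Subtype.val h1
        rw [← h2]
        show a ∈ Γ
        rw [← h3]
        exact hΓ.mem_toFinset.1 hb
      · intro hz
        exact ⟨z, mem_algebraicClosure_iff.2 (hΓa z hz), ⟨z, hΓ.mem_toFinset.2 hz, rfl⟩, rfl⟩
    rw [e1]
    apply exc_congr
    intro j β hβ
    rw [Finsupp.onFinset_apply, dif_pos hβ]
    exact hp j β hβ

theorem excAll_pow {E : Set ℤ} (hE : E ∈ ExcAll) : ∀ ε : ℝ, 0 < ε → ∃ C : ℝ, ∀ X : ℝ, 1 ≤ X →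
      {t : ℤ | t ∈ E ∧ |(t : ℝ)| ≤ X}.Finite ∧ ({t : ℤ | t ∈ E ∧ |(t : ℝ)| ≤ X}.ncard : ℝ) ≤ C * X ^ ((0 : ℝ) + ε) := by
  obtain ⟨n, m, r, A, c, Γ, h, -, hΓ, -, rfl⟩ := hE
  exact count_pow h hΓ

end Pool.Agent.K6.H40.TropFew
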