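import Pool.Agent.R909.RandSets
import Pool.Agent.R479.DA.Lim
import Pool.Agent.Results.MP_b7926e_nt.FewExceptionalParameters

/-!
# The exceptional integers of one-parameter families of subvarieties of tori

Counts, in various forms, of the integers `t` for which the member `X_t` of a family with tropicalizations in general
position has an atypical intersection; from the starting file `FewExceptionalParameters` of `MP_b7926e_nt`.
-/

set_option autoImplicit false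

namespace Pool.Agent.K6.H40.TropFew

open Pool.Agent.Results.MP_b7926e_nt.FewExceptionalParameters (member order Trop NoAtypical)

variable {n m : ℕ}

/-- The family `X_t` with the supports `A_j` and the coefficients `c_jβ ∈ ℂ[t]`: the sets `A_j` are not empty, the
coefficients are not zero, and there are algebraic numbers `α_1, …, α_M` such that no linear subspace of `ℚ^n` of dimension
less than `r` meets all the tropicalizations of the family at the `α_l`. -/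
def Generic (r : ℕ) (A : Fin m → Finset (Fin n → ℤ)) (c : Fin m → (Fin n → ℤ) → Polynomial ℂ) : Prop :=
  (∀ j, (A j).Nonempty) ∧ (∀ j, ∀ β ∈ A j, c j β ≠ 0) ∧
    ∃ (M : ℕ) (α : Fin M → ℂ), (∀ l, IsAlgebraic ℚ (α l)) ∧
      ∀ L : Submodule ℚ (Fin n → ℚ), Module.finrank ℚ L < r → ∃ l, ∀ w ∈ L, w ∉ Trop A (order c (α l))

/-- the exceptional integers -/
def Exc (r : ℕ) (Γ : Set ℂ) (A : Fin m → Finset (Fin n → ℤ)) (c : Fin m → (Fin n → ℤ) → Polynomial ℂ) : Set ℤ :=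
  {t : ℤ | ¬ NoAtypical r Γ (member A c (t : ℂ))}

lemma finite_abs (S : Set ℤ) (B : ℝ) : {t : ℤ | t ∈ S ∧ |(t : ℝ)| ≤ B}.Finite := by
  refine (Set.finite_Icc (-⌊|B|⌋) ⌊|B|⌋).subset ?_
  rintro t ⟨-, h⟩
  have h1 : |(t : ℝ)| ≤ |B| := h.trans (le_abs_self B)
  have h2 : ((|t| : ℤ) : ℝ) ≤ |B| := by rw [Int.cast_abs]; exact h1
  have h3 : |t| ≤ ⌊|B|⌋ := Int.le_floor.2 h2
  exact Set.mem_Icc.2 (abs_le.1 h3)

theorem count {r : ℕ} {A : Fin m → Finset (Fin n → ℤ)} {c : Fin m → (Fin n → ℤ) → Polynomial ℂ} (h : Generic r A c)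
    {Γ : Set ℂ} (hΓ : Γ.Finite) : ∃ C s : ℕ, ∀ B : ℕ, 2 ≤ B →
      ({t : ℤ | t ∈ Exc r Γ A c ∧ |(t : ℝ)| ≤ B}.ncard : ℝ) ≤ C * Real.log B ^ s := by
  classical
  obtain ⟨hA, hc, M, α, hα, hgen⟩ := h
  obtain ⟨C, s, hCs⟩ := Pool.Agent.Results.MP_b7926e_nt.FewExceptionalParameters.result r A hA c hc α hα hgen Γ hΓ
  refine ⟨C, s, fun B hB => ?_⟩
  have hfin := finite_abs (Exc r Γ A c) B
  have h1 := hCs B 1 hB (by omega) (hfin.toFinset.image (fun t : ℤ => (t : ℚ))) (by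
    intro t ht
    rw [Finset.mem_image] at ht
    obtain ⟨a, ha, rfl⟩ := ht
    rw [Set.Finite.mem_toFinset] at ha
    obtain ⟨h2, h3⟩ := ha
    refine ⟨Rat.den_intCast a, ?_, ?_⟩
    · rw [Rat.num_intCast]
      have : ((|a| : ℤ) : ℝ) ≤ ((B : ℤ) : ℝ) := by rw [Int.cast_abs]; exact_mod_cast h3
      exact_mod_cast this
    · have e : (((a : ℚ)) : ℂ) = (a : ℂ) := by push_cast; rfl
      rw [e]
      exact h2)
  rw [Finset.card_image_of_injective _ Int.cast_injective] at h1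
  rw [Set.ncard_eq_toFinset_card _ hfin]
  exact h1

theorem count_real {r : ℕ} {A : Fin m → Finset (Fin n → ℤ)} {c : Fin m → (Fin n → ℤ) → Polynomial ℂ}
    (h : Generic r A c) {Γ : Set ℂ} (hΓ : Γ.Finite) : ∃ (C : ℝ) (s : ℕ), 0 ≤ C ∧ ∀ X : ℝ, 0 ≤ X →
      {t : ℤ | t ∈ Exc r Γ A c ∧ |(t : ℝ)| ≤ X}.Finite ∧
      ({t : ℤ | t ∈ Exc r Γ A c ∧ |(t : ℝ)| ≤ X}.ncard : ℝ) ≤ C * Real.log (X + 3) ^ s := by
  obtain ⟨C, s, hCs⟩ := count h hΓ
  refine ⟨C, s, Nat.cast_nonneg _, fun X hX => ⟨finite_abs _ X, ?_⟩⟩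
  have h1 := hCs (⌊X⌋₊ + 2) (by omega)
  have h2 : {t : ℤ | t ∈ Exc r Γ A c ∧ |(t : ℝ)| ≤ X} ⊆ {t : ℤ | t ∈ Exc r Γ A c ∧ |(t : ℝ)| ≤ ((⌊X⌋₊ + 2 : ℕ) : ℝ)} := by
    rintro t ⟨h3, h4⟩
    refine ⟨h3, h4.trans ?_⟩
    have := Nat.lt_floor_add_one X
    push_cast
    linarith
  have h3 : (({t : ℤ | t ∈ Exc r Γ A c ∧ |(t : ℝ)| ≤ X}.ncard : ℕ) : ℝ) ≤
      ({t : ℤ | t ∈ Exc r Γ A c ∧ |(t : ℝ)| ≤ ((⌊X⌋₊ + 2 : ℕ) : ℝ)}.ncard : ℝ) := by
    exact_mod_cast Set.ncard_le_ncard h2 (finite_abs _ _)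
  refine h3.trans (h1.trans ?_)
  have h5 : Real.log ((⌊X⌋₊ + 2 : ℕ) : ℝ) ≤ Real.log (X + 3) := by
    apply Real.log_le_log
    · push_cast
      positivity
    · have := Nat.floor_le hX
      push_cast
      linarith
  have h6 : 0 ≤ Real.log ((⌊X⌋₊ + 2 : ℕ) : ℝ) := Real.log_natCast_nonneg _
  exact mul_le_mul_of_nonneg_left (pow_le_pow_left₀ h6 h5 s) (Nat.cast_nonneg _)

/-- the power form, with the exponent `0` -/
theorem count_pow {r : ℕ} {A : Fin m → Finset (Fin n → ℤ)} {c : Fin m → (Fin n → ℤ) → Polynomial ℂ}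
    (h : Generic r A c) {Γ : Set ℂ} (hΓ : Γ.Finite) : ∀ ε : ℝ, 0 < ε → ∃ C : ℝ, ∀ X : ℝ, 1 ≤ X →
      {t : ℤ | t ∈ Exc r Γ A c ∧ |(t : ℝ)| ≤ X}.Finite ∧
      ({t : ℤ | t ∈ Exc r Γ A c ∧ |(t : ℝ)| ≤ X}.ncard : ℝ) ≤ C * X ^ ((0 : ℝ) + ε) := by
  intro ε hε
  obtain ⟨C, s, hC, hCs⟩ := count_real h hΓ
  obtain ⟨δ, hδ⟩ : ∃ δ : ℝ, δ = ε / (s + 1) := ⟨_, rfl⟩
  have hs0 : (0 : ℝ) < (s : ℝ) + 1 := by positivity
  have hδ0 : 0 < δ := by rw [hδ]; positivity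
  have hδs : δ * s ≤ ε := by
    rw [hδ, div_mul_eq_mul_div, div_le_iff₀ hs0]
    nlinarith
  refine ⟨C * ((4 : ℝ) ^ ε / δ ^ s), fun X hX => ?_⟩
  obtain ⟨h1, h2⟩ := hCs X (by linarith)
  refine ⟨h1, h2.trans ?_⟩
  rw [mul_assoc]
  refine mul_le_mul_of_nonneg_left ?_ hC
  have hX3 : (0 : ℝ) ≤ X + 3 := by linarith
  have h3 : Real.log (X + 3) ≤ (X + 3) ^ δ / δ := Real.log_le_rpow_div hX3 hδ0
  have h4 : 0 ≤ Real.log (X + 3) := Real.log_nonneg (by linarith)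
  calc Real.log (X + 3) ^ s ≤ ((X + 3) ^ δ / δ) ^ s := pow_le_pow_left₀ h4 h3 s
    _ = (X + 3) ^ (δ * s) / δ ^ s := by
        rw [div_pow, ← Real.rpow_natCast ((X + 3) ^ δ) s, ← Real.rpow_mul hX3]
    _ ≤ (X + 3) ^ ε / δ ^ s := by
        apply div_le_div_of_nonneg_right _ (by positivity)
        exact Real.rpow_le_rpow_of_exponent_le (by linarith) hδs
    _ ≤ (4 * X) ^ ε / δ ^ s := by
        apply div_le_div_of_nonneg_right _ (by positivity)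
        exact Real.rpow_le_rpow hX3 (by linarith) hε.le
    _ = 4 ^ ε / δ ^ s * X ^ (0 + ε) := by
        rw [Real.mul_rpow (by norm_num) (by linarith), zero_add]
        ring

/-- the heights `log (|t| + 3)` -/
noncomputable def H (t : ℤ) : ℝ := Real.log (|(t : ℝ)| + 3)

lemma one_le_H (t : ℤ) : 1 ≤ H t := by
  unfold H
  have h1 : Real.exp 1 ≤ |(t : ℝ)| + 3 := by
    have := Real.exp_one_lt_d9
    have := abs_nonneg (t : ℝ)
    linarith
  calc (1 : ℝ) = Real.log (Real.exp 1) := (Real.log_exp 1).symm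
    _ ≤ _ := Real.log_le_log (Real.exp_pos _) h1

/-- the sum over the exceptional integers of the powers of the logarithms converges -/
theorem summable_log {r : ℕ} {A : Fin m → Finset (Fin n → ℤ)} {c : Fin m → (Fin n → ℤ) → Polynomial ℂ}
    (h : Generic r A c) {Γ : Set ℂ} (hΓ : Γ.Finite) : ∃ s : ℕ, ∀ p : ℝ, (s : ℝ) < p →
      Summable fun t : {t : ℤ // t ∈ Exc r Γ A c} => H t.1 ^ (-p) := by
  obtain ⟨C, s, hC, hCs⟩ := count_real h hΓ
  refine ⟨s, fun p hp => ?_⟩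
  have hp0 : 0 < p := lt_of_le_of_lt (Nat.cast_nonneg s) hp
  refine Pool.Agent.R479.DA.summable_heights (fun t : {t : ℤ // t ∈ Exc r Γ A c} => H t.1) (fun t => one_le_H t.1)
    (s := s) (p := p) (C := C * 2 ^ s) hp hp0 (fun X hX => ?_)
  obtain ⟨h1, h2⟩ := hCs (Real.exp X) (Real.exp_pos _).le
  have hmaps : Set.MapsTo (Subtype.val : {t : ℤ // t ∈ Exc r Γ A c} → ℤ) {t | H t.1 ≤ X}
      {t : ℤ | t ∈ Exc r Γ A c ∧ |(t : ℝ)| ≤ Real.exp X} := by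
    rintro ⟨t, ht⟩ h3
    refine ⟨ht, ?_⟩
    have h4 : Real.log (|(t : ℝ)| + 3) ≤ X := h3
    have h5 : |(t : ℝ)| + 3 ≤ Real.exp X := by
      rw [← Real.log_le_iff_le_exp (by positivity)]
      exact h4
    linarith
  have hinj : Set.InjOn (Subtype.val : {t : ℤ // t ∈ Exc r Γ A c} → ℤ) {t | H t.1 ≤ X} :=
    Subtype.val_injective.injOn
  refine ⟨h1.of_injOn hmaps hinj, ?_⟩
  have h3 : ((({t : {t : ℤ // t ∈ Exc r Γ A c} | H t.1 ≤ X}).ncard : ℕ) : ℝ) ≤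
      ({t : ℤ | t ∈ Exc r Γ A c ∧ |(t : ℝ)| ≤ Real.exp X}.ncard : ℝ) := by
    exact_mod_cast Set.ncard_le_ncard_of_injOn _ hmaps hinj h1
  refine h3.trans (h2.trans ?_)
  rw [mul_assoc]
  refine mul_le_mul_of_nonneg_left ?_ hC
  have h5 : Real.log (Real.exp X + 3) ≤ 2 * X := by
    rw [Real.log_le_iff_le_exp (by positivity)]
    have h6 : (2 : ℝ) ≤ Real.exp X - 1 + 1 := by
      have := Real.add_one_le_exp X
      linarith
    have h7 : Real.exp (2 * X) = Real.exp X * Real.exp X := by rw [two_mul, Real.exp_add]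
    have h8 : Real.exp 1 ≤ Real.exp X := Real.exp_le_exp.2 hX
    have h9 := Real.exp_one_gt_d9
    rw [h7]
    nlinarith
  have h6 : 0 ≤ Real.log (Real.exp X + 3) := Real.log_nonneg (by have := Real.exp_pos X; linarith)
  calc Real.log (Real.exp X + 3) ^ s ≤ (2 * X) ^ s := pow_le_pow_left₀ h6 h5 s
    _ = 2 ^ s * X ^ (s : ℝ) := by rw [mul_pow, Real.rpow_natCast]

end Pool.Agent.K6.H40.TropFew
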